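import Pool.Agent.H95.PD.NegProjSm

/-!
# Project PD4: real constant matrices over `Sm n` and over `ℂ`, Real matrices (helper42)
-/

open Matrix
open scoped ComplexOrder ContDiff

namespace Pool.Agent.PD4

section consts

/-- real constant rectangular matrices over `Sm n` -/
noncomputable def rMat {n : ℕ} {κ κ' : Type*} (C : Matrix κ κ' ℝ) : Matrix κ κ' (Sm n) :=
  C.map fun r => algebraMap ℂ (Sm n) (r : ℂ)

/-- complexification of a real matrix -/
def cx {κ κ' : Type*} (C : Matrix κ κ' ℝ) : Matrix κ κ' ℂ := C.map fun r => (r : ℂ)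

variable {n : ℕ} {κ κ' κ'' : Type*}

@[simp] lemma mev_rMat (x : Fin n → ℝ) (C : Matrix κ κ' ℝ) : mev x (rMat (n := n) C) = cx C := rfl

lemma rMat_mul [Fintype κ'] (C : Matrix κ κ' ℝ) (D : Matrix κ' κ'' ℝ) :
    rMat (n := n) (C * D) = rMat C * rMat D := by
  refine Matrix.ext fun i j => ?_
  have h : rMat (n := n) (C * D) i j = ∑ k, rMat (n := n) C i k * rMat (n := n) D k j := by
    simp only [rMat, Matrix.map_apply, Matrix.mul_apply, Complex.ofReal_sum, Complex.ofReal_mul,
      map_sum, map_mul]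
  rw [h]
  rfl

lemma cx_mul [Fintype κ'] (C : Matrix κ κ' ℝ) (D : Matrix κ' κ'' ℝ) :
    cx (C * D) = cx C * cx D := by
  ext i j
  simp only [cx, Matrix.map_apply, Matrix.mul_apply, Complex.ofReal_sum, Complex.ofReal_mul]

lemma rMat_one [DecidableEq κ] : rMat (n := n) (1 : Matrix κ κ ℝ) = 1 := by
  refine Matrix.ext fun i j => ?_
  by_cases h : i = j
  · subst h
    simp [rMat]
  · simp [rMat, h]

lemma cx_one [DecidableEq κ] : cx (1 : Matrix κ κ ℝ) = 1 := by
  ext i j
  by_cases h : i = j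
  · subst h
    simp [cx]
  · simp [cx, h]

lemma rMat_conjTranspose (C : Matrix κ κ' ℝ) : (rMat (n := n) C)ᴴ = rMat Cᵀ := by
  refine Matrix.ext fun i j => ?_
  apply Subtype.ext
  funext x
  exact Complex.conj_ofReal _

lemma cx_conjTranspose (C : Matrix κ κ' ℝ) : (cx C)ᴴ = cx Cᵀ := by
  ext i j
  exact Complex.conj_ofReal _

lemma mreal_rMat (C : Matrix κ κ' ℝ) : MReal (rMat (n := n) C) := by
  intro i j
  apply Subtype.ext
  funext x
  exact (Complex.conj_ofReal _).symm

lemma MReal.mul [Fintype κ'] {M : Matrix κ κ' (Sm n)} {N : Matrix κ' κ'' (Sm n)} (hM : MReal M)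
    (hN : MReal N) : MReal (M * N) := by
  intro i j
  unfold Sm.IsReal
  rw [Matrix.mul_apply, map_sum, star_sum]
  refine Finset.sum_congr rfl fun k _ => ?_
  rw [map_mul, star_mul', hM i k, hN k j]

lemma MReal.add {M N : Matrix κ κ' (Sm n)} (hM : MReal M) (hN : MReal N) : MReal (M + N) := by
  intro i j
  unfold Sm.IsReal
  rw [Matrix.add_apply, map_add, star_add, hM i j, hN i j]

lemma MReal.sub {M N : Matrix κ κ' (Sm n)} (hM : MReal M) (hN : MReal N) : MReal (M - N) := by
  intro i j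
  unfold Sm.IsReal
  rw [Matrix.sub_apply, map_sub, star_sub, hM i j, hN i j]

lemma MReal.conjTranspose {M : Matrix κ κ' (Sm n)} (hM : MReal M) : MReal Mᴴ := by
  intro i j
  unfold Sm.IsReal
  rw [Matrix.conjTranspose_apply, map_star, hM j i]

end consts

end Pool.Agent.PD4
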