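import Pool.Agent.PD4.Ix.Laurent
import Pool.Agent.H95.PD.NegProjSm

/-!
# Project PD: Laurent polynomials: involution, value and first order part at `1`

For a commutative ring `R` and `L = AddMonoidAlgebra R (Fin n → ℤ)`:
* `star` = `t^m ↦ t^{-m}` (trivial on the coefficients);
* `laug : L →+* R`, value at `1`;
* `lder j : L →ₗ[R] R`, `t_j ∂/∂t_j` at `1`;
* `lbc φ : L_R →+* L_S`, change of coefficients;
* for `R = ℝ`: `lev (star f) = star (lev f)`, value and first derivative of `lev f` at `0`.
-/

open scoped ContDiff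
open Matrix

namespace Pool.Agent.PD4

section gen

variable {R S : Type*} [CommRing R] [CommRing S] {n : ℕ}

/-- the involution as a ring homomorphism -/
noncomputable def lbar : AddMonoidAlgebra R (Fin n → ℤ) →+* AddMonoidAlgebra R (Fin n → ℤ) :=
  AddMonoidAlgebra.mapDomainRingHom R (-AddMonoidHom.id (Fin n → ℤ))

lemma lbar_single (m : Fin n → ℤ) (c : R) :
    lbar (AddMonoidAlgebra.single m c) = AddMonoidAlgebra.single (-m) c := by
  simp [lbar]

lemma lbar_lbar (f : AddMonoidAlgebra R (Fin n → ℤ)) : lbar (lbar f) = f := by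
  induction f using AddMonoidAlgebra.induction_linear with
  | zero => simp
  | add f g hf hg => rw [map_add, map_add, hf, hg]
  | single m c => rw [lbar_single, lbar_single, neg_neg]

noncomputable instance instStarRingLau : StarRing (AddMonoidAlgebra R (Fin n → ℤ)) where
  star := lbar
  star_involutive := lbar_lbar
  star_mul f g := by
    change lbar (f * g) = lbar g * lbar f
    rw [map_mul, mul_comm]
  star_add f g := map_add lbar f g

lemma star_eq_lbar (f : AddMonoidAlgebra R (Fin n → ℤ)) : star f = lbar f := rfl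

lemma star_lsingle (m : Fin n → ℤ) (c : R) :
    star (AddMonoidAlgebra.single m c : AddMonoidAlgebra R (Fin n → ℤ)) =
      AddMonoidAlgebra.single (-m) c := lbar_single m c

/-- value at `t = 1` (sum of the coefficients) -/
noncomputable def laug : AddMonoidAlgebra R (Fin n → ℤ) →+* R :=
  ((AddMonoidAlgebra.lift R R (Fin n → ℤ)) 1).toRingHom

lemma laug_single (m : Fin n → ℤ) (c : R) :
    laug (AddMonoidAlgebra.single m c) = c := by
  simp [laug]

/-- `t_j ∂/∂t_j` at `t = 1`: `∑ m_j f(m)` -/
noncomputable def lder (j : Fin n) : AddMonoidAlgebra R (Fin n → ℤ) →ₗ[R] R :=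
  (Finsupp.lsum R fun m : Fin n → ℤ => (LinearMap.id : R →ₗ[R] R).smulRight ((m j : ℤ) : R)) ∘ₗ
    (AddMonoidAlgebra.coeffLinearEquiv R).toLinearMap

lemma lder_single (j : Fin n) (m : Fin n → ℤ) (c : R) :
    lder j (AddMonoidAlgebra.single m c) = c * m j := by
  simp [lder]

lemma laug_star (f : AddMonoidAlgebra R (Fin n → ℤ)) : laug (star f) = laug f := by
  rw [star_eq_lbar]
  induction f using AddMonoidAlgebra.induction_linear with
  | zero => simp
  | add f g hf hg => rw [map_add, map_add, hf, hg, map_add]
  | single m c => rw [lbar_single, laug_single, laug_single]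

lemma lder_star (j : Fin n) (f : AddMonoidAlgebra R (Fin n → ℤ)) :
    lder j (star f) = - lder j f := by
  rw [star_eq_lbar]
  induction f using AddMonoidAlgebra.induction_linear with
  | zero => simp
  | add f g hf hg => rw [map_add, map_add, hf, hg, map_add]; ring
  | single m c => rw [lbar_single, lder_single, lder_single]; simp

/-- Leibniz rule at `1` -/
lemma lder_mul (j : Fin n) (f g : AddMonoidAlgebra R (Fin n → ℤ)) :
    lder j (f * g) = lder j f * laug g + laug f * lder j g := by
  induction f using AddMonoidAlgebra.induction_linear with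
  | zero => simp
  | add f f' hf hf' => rw [add_mul, map_add, hf, hf', map_add, map_add]; ring
  | single m c =>
    induction g using AddMonoidAlgebra.induction_linear with
    | zero => simp
    | add g g' hg hg' => rw [mul_add, map_add, hg, hg', map_add, map_add]; ring
    | single m' c' =>
      rw [AddMonoidAlgebra.single_mul_single, lder_single, lder_single, lder_single, laug_single,
        laug_single]
      simp
      ring

lemma lder_one (j : Fin n) : lder (R := R) j 1 = 0 := by
  rw [AddMonoidAlgebra.one_def, lder_single]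
  simp

/-- change of coefficients -/
noncomputable def lbc (φ : R →+* S) :
    AddMonoidAlgebra R (Fin n → ℤ) →+* AddMonoidAlgebra S (Fin n → ℤ) :=
  AddMonoidAlgebra.mapRingHom _ φ

lemma lbc_single (φ : R →+* S) (m : Fin n → ℤ) (c : R) :
    lbc φ (AddMonoidAlgebra.single m c) = AddMonoidAlgebra.single m (φ c) := by
  simp [lbc]

lemma lbc_star (φ : R →+* S) (f : AddMonoidAlgebra R (Fin n → ℤ)) :
    lbc φ (star f) = star (lbc φ f) := by
  rw [star_eq_lbar, star_eq_lbar]
  induction f using AddMonoidAlgebra.induction_linear with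
  | zero => simp
  | add f g hf hg => rw [map_add, map_add, hf, hg, map_add, map_add]
  | single m c => rw [lbar_single, lbc_single, lbc_single, lbar_single]

lemma laug_lbc (φ : R →+* S) (f : AddMonoidAlgebra R (Fin n → ℤ)) :
    laug (lbc φ f) = φ (laug f) := by
  induction f using AddMonoidAlgebra.induction_linear with
  | zero => simp
  | add f g hf hg => rw [map_add, map_add, hf, hg, map_add, map_add]
  | single m c => rw [lbc_single, laug_single, laug_single]

lemma lder_lbc (φ : R →+* S) (j : Fin n) (f : AddMonoidAlgebra R (Fin n → ℤ)) :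
    lder j (lbc φ f) = φ (lder j f) := by
  induction f using AddMonoidAlgebra.induction_linear with
  | zero => simp
  | add f g hf hg => rw [map_add, map_add, hf, hg, map_add, map_add]
  | single m c => rw [lbc_single, lder_single, lder_single]; simp

/-- the variable `t_j` -/
noncomputable def lT (j : Fin n) : AddMonoidAlgebra R (Fin n → ℤ) :=
  AddMonoidAlgebra.single (Pi.single j 1) 1

lemma laug_lT (j : Fin n) : laug (R := R) (lT j) = 1 := laug_single _ _

lemma lder_lT (i j : Fin n) : lder (R := R) i (lT j) = if i = j then 1 else 0 := by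
  rw [lT, lder_single, Pi.single_apply]
  split_ifs <;> simp

end gen

section real

variable {n : ℕ}

lemma lev_star (f : Laurent n) : lev (star f) = star (lev f) := by
  rw [star_eq_lbar]
  induction f using AddMonoidAlgebra.induction_linear with
  | zero => simp
  | add f g hf hg => rw [map_add, map_add, hf, hg, map_add, star_add]
  | single m c =>
    rw [lbar_single, lev_single, lev_single, star_smul]
    apply Subtype.ext
    funext x
    change (c : ℂ) * Complex.exp (2 * Real.pi * Complex.I * ∑ i, ((-m) i : ℂ) * (x i : ℂ)) =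
      (starRingEnd ℂ) (c : ℂ) *
        (starRingEnd ℂ) (Complex.exp (2 * Real.pi * Complex.I * ∑ i, (m i : ℂ) * (x i : ℂ)))
    rw [Complex.conj_ofReal, ← Complex.exp_conj]
    congr 2
    simp only [Pi.neg_apply, Int.cast_neg, neg_mul, Finset.sum_neg_distrib, mul_neg, map_mul,
      map_sum, Complex.conj_ofReal, Complex.conj_I, map_ofNat, map_intCast]

/-- value of `lev f` at `0` -/
lemma lev_zero (f : Laurent n) : (lev f).1 0 = ((laug f : ℝ) : ℂ) := by
  induction f using AddMonoidAlgebra.induction_linear with
  | zero => simp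
  | add f g hf hg =>
    rw [map_add, map_add]
    change (lev f).1 0 + (lev g).1 0 = _
    rw [hf, hg]; push_cast; rfl
  | single m c =>
    rw [lev_single, laug_single]
    change (c : ℂ) * Complex.exp (2 * Real.pi * Complex.I * ∑ i, (m i : ℂ) * ((0 : ℝ) : ℂ)) = _
    simp

/-- derivative of `lev f` at `0` -/
lemma lev_pD_zero (j : Fin n) (f : Laurent n) :
    (pD j (lev f)).1 0 = 2 * Real.pi * Complex.I * ((lder j f : ℝ) : ℂ) := by
  induction f using AddMonoidAlgebra.induction_linear with
  | zero => simp
  | add f g hf hg =>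
    rw [map_add, map_add, map_add]
    change (pD j (lev f)).1 0 + (pD j (lev g)).1 0 = _
    rw [hf, hg]; push_cast; ring
  | single m c =>
    rw [lev_single, lder_single, map_smul]
    change (c : ℂ) * fderiv ℝ (fun x : Fin n → ℝ => Complex.exp (2 * Real.pi * Complex.I *
      ∑ i, (m i : ℂ) * (x i : ℂ))) 0 (Pi.single j 1) = _
    have h1 : HasFDerivAt (fun x : Fin n → ℝ => (2 * Real.pi * Complex.I *
        ∑ i, (m i : ℂ) * (x i : ℂ) : ℂ))
        ((2 * Real.pi * Complex.I : ℂ) • ∑ i, (m i : ℂ) •
          (Complex.ofRealCLM.comp (ContinuousLinearMap.proj (R := ℝ) (φ := fun _ : Fin n => ℝ) i)))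
        0 := by
      refine HasFDerivAt.const_mul (HasFDerivAt.fun_sum fun i _ => ?_) _
      refine HasFDerivAt.const_mul ?_ _
      exact Complex.ofRealCLM.hasFDerivAt.comp (0 : Fin n → ℝ)
        (ContinuousLinearMap.proj (R := ℝ) (φ := fun _ : Fin n => ℝ) i).hasFDerivAt
    rw [h1.cexp.fderiv]
    simp [Pi.single_apply, apply_ite Complex.ofReal]
    ring

/-- the character `t^m ↦ e(m·x)` of the Laurent ring -/
noncomputable def lch (x : Fin n → ℝ) : Laurent n →+* ℂ :=
  ((Sm.ev x : Sm n →⋆ₐ[ℂ] ℂ) : Sm n →+* ℂ).comp lev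

lemma lch_apply (x : Fin n → ℝ) (f : Laurent n) : lch x f = (lev f).1 x := rfl

lemma lch_single (x : Fin n → ℝ) (m : Fin n → ℤ) (c : ℝ) :
    lch x (AddMonoidAlgebra.single m c) =
      c * Complex.exp (2 * Real.pi * Complex.I * ∑ i, (m i : ℂ) * (x i : ℂ)) := by
  rw [lch_apply, lev_single]
  rfl

lemma lch_star (x : Fin n → ℝ) (f : Laurent n) : lch x (star f) = star (lch x f) := by
  rw [lch_apply, lev_star]
  rfl

lemma lch_zero (f : Laurent n) : lch 0 f = ((laug f : ℝ) : ℂ) := lev_zero f

variable {ι κ : Type*}

lemma mev_lev (x : Fin n → ℝ) (A : Matrix ι κ (Laurent n)) :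
    mev x (A.map lev) = A.map (lch x) := rfl

lemma map_lev_conjTranspose (A : Matrix ι κ (Laurent n)) : (A.map lev)ᴴ = Aᴴ.map lev := by
  ext i j : 2
  simp only [Matrix.conjTranspose_apply, Matrix.map_apply, lev_star]

lemma map_lev_mul {l : Type*} [Fintype κ] (A : Matrix ι κ (Laurent n)) (B : Matrix κ l (Laurent n)) :
    (A * B).map lev = A.map lev * B.map lev := Matrix.map_mul

lemma mev_lev_zero (A : Matrix ι κ (Laurent n)) :
    mev 0 (A.map lev) = (A.map laug).map (fun r : ℝ => (r : ℂ)) := by
  ext i j
  exact lev_zero _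

lemma mev_lev_pD_zero (j : Fin n) (A : Matrix ι κ (Laurent n)) :
    mev 0 ((A.map lev).map (pD j)) =
      (2 * Real.pi * Complex.I : ℂ) • (A.map (lder j)).map (fun r : ℝ => (r : ℂ)) := by
  ext i k
  exact lev_pD_zero _ _

/-- `lev f` is a Real function: `(lev f)(-x) = conj (lev f)(x)` -/
lemma lev_isReal (f : Laurent n) : Sm.IsReal (lev f) := by
  unfold Sm.IsReal
  induction f using AddMonoidAlgebra.induction_linear with
  | zero => simp
  | add f g hf hg => rw [map_add, map_add, hf, hg, star_add]
  | single m c =>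
    rw [lev_single]
    apply Subtype.ext
    funext x
    change (c : ℂ) * Complex.exp (2 * Real.pi * Complex.I * ∑ i, (m i : ℂ) * (((-x) i : ℝ) : ℂ)) =
      (starRingEnd ℂ) ((c : ℂ) *
        (Complex.exp (2 * Real.pi * Complex.I * ∑ i, (m i : ℂ) * (x i : ℂ))))
    rw [map_mul, Complex.conj_ofReal, ← Complex.exp_conj]
    congr 2
    simp only [Pi.neg_apply, Complex.ofReal_neg, mul_neg, neg_mul, Finset.sum_neg_distrib, map_mul,
      map_sum, Complex.conj_ofReal, Complex.conj_I, map_ofNat, map_intCast]

lemma MReal_lev (A : Matrix ι κ (Laurent n)) : MReal (A.map lev) := fun _ _ => lev_isReal _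

end real

end Pool.Agent.PD4
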