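import Pool.Agent.PD4.Oct
import Pool.Agent.PD4.Lau

/-!
# Project PD: the interface between the algebra block and the rest

`IfaceData ι` collects what the algebra block produces from a 4-dimensional Poincare complex over
`Z[Z^8]` realising the class; `iface_false` (file `Asm.lean`) shows that there is no such thing.
-/

open Matrix

namespace Pool.Agent.PD4

/-- the data and hypotheses of the interface theorem (`N = ι`) -/
structure IfaceData (ι : Type) [Fintype ι] [DecidableEq ι] where
  /-- the hermitian unimodular matrix -/
  B : Matrix ι ι (Laurent 8)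
  herm : Bᴴ = B
  unit : IsUnit B
  /-- eight columns, negative semidefinite, injective off `1` -/
  A : Matrix ι (Fin 8) (Laurent 8)
  K : Matrix (Fin 1) (Fin 8) (Laurent 8)
  neg : Aᴴ * B * A = -(Kᴴ * K)
  inj : ∀ x : Fin 8 → ℝ, (∀ k : Fin 8 → ℤ, x ≠ fun i => (k i : ℝ)) →
    ∀ v : Fin 8 → ℂ, A.map (lch x) *ᵥ v = 0 → v = 0
  zero : A.map laug = 0
  /-- normal form of the form at `1`, exactly 11 negative directions -/
  S : Matrix ι ι ℝ
  s : Finset ι
  card : s.card = 11
  diag : Sᵀ * B.map laug * S = Matrix.diagonal fun i => if i ∈ s then (-1 : ℝ) else 1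
  /-- eight linear forms vanishing on the positive coordinates -/
  lam : Matrix (Fin 8) ι ℝ
  lamS : ∀ i ∉ s, ∀ c, (lam * S) c i = 0
  /-- first order behaviour at `1`: octonion multiplication -/
  first : ∀ j c l, (lam * A.map (lder j)) c l = MOct j c l

end Pool.Agent.PD4
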