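import Pool.Agent.PD4.Split
import Pool.Agent.PD4.Iface
import Pool.Agent.PD4.Geo.Core

/-!
# Project PD4: from the algebraic interface to the geometric core data (helper42)
-/

open Matrix
open scoped ComplexOrder ContDiff

namespace Pool.Agent.PD4

/-- the matrix `4 g⁻¹` of the certificate -/
def gOctInv : Matrix (Fin 8) (Fin 8) ℤ :=
  !![-2, 1, 0, 0, 0, 0, 0, 0;
     0, 2, 0, 0, 0, 0, 0, 0;
     0, 0, -2, 0, 0, 0, 0, 0;
     0, 0, 2, 4, 0, 0, 0, 0;
     0, 0, 0, 0, 4, 4, 4, 0;
     0, 0, 0, 0, 0, 0, 0, -4;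
     0, 0, 0, 0, -4, -4, 0, 0;
     0, 0, 0, 0, -4, 0, 0, 0]

lemma gOct_mul_inv : gOct * gOctInv = (4 : ℤ) • (1 : Matrix (Fin 8) (Fin 8) ℤ) := by
  decide +kernel

/-- the real matrix `g` -/
def gR : Matrix (Fin 8) (Fin 8) ℝ := gOct.map fun t : ℤ => (t : ℝ)

lemma gR_det : gR.det ≠ 0 := by
  have h1 : gOct.det ≠ 0 := by
    intro h
    have h2 := congrArg Matrix.det gOct_mul_inv
    rw [Matrix.det_mul, h, zero_mul, Matrix.det_smul, Matrix.det_one] at h2
    norm_num at h2
  have h3 : gR.det = ((gOct.det : ℤ) : ℝ) := by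
    have := RingHom.map_det (Int.castRingHom ℝ) gOct
    exact this.symm
  rw [h3]
  exact_mod_cast h1

/-- the first order matrices of the interface are the octonionic ones -/
lemma MOct_eq (j c l : Fin 8) :
    ((MOct j c l : ℤ) : ℝ) = octM (1 : Matrix (Fin 8) (Fin 8) ℝ) gR (Pi.single j 1) c l := by
  unfold MOct octM
  by_cases hc : c = 0
  · rw [if_pos hc, if_pos hc, Matrix.vecMul_one]
    by_cases h : j = l
    · subst h
      simp
    · simp [h, Ne.symm h]
  · rw [if_neg hc, if_neg hc, Matrix.mul_apply]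
    unfold yOct
    have h1 : gR *ᵥ (Pi.single j 1 : Fin 8 → ℝ) = fun a => gR a j := by
      funext a
      rw [Matrix.mulVec_single_one]
      rfl
    rw [h1]
    have h2 : ∀ b, Loc.octFrame.lin (fun a => gR a j) c b =
        ∑ a, gR a j * ((Loc.octL a c b : ℤ) : ℝ) := by
      intro b
      unfold Loc.OctFrame.lin
      rw [Matrix.sum_apply]
      rfl
    simp only [h2]
    push_cast
    rw [Finset.sum_comm]
    refine Finset.sum_congr rfl fun b _ => ?_
    rw [Finset.sum_mul]
    refine Finset.sum_congr rfl fun a _ => ?_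
    change (gOct a j : ℝ) * (gOct b l : ℝ) * _ = (gOct a j : ℝ) * _ * (gOct b l : ℝ)
    ring

namespace IfaceData

variable {ι : Type} [Fintype ι] [DecidableEq ι] (D : IfaceData ι)

/-- the hermitian matrix over `Sm 8` -/
noncomputable def BS : Matrix ι ι (Sm 8) := D.B.map lev

/-- the columns over `Sm 8` -/
noncomputable def AS : Matrix ι (Fin 8) (Sm 8) := D.A.map lev

lemma BS_herm : D.BSᴴ = D.BS := by
  unfold BS
  rw [map_lev_conjTranspose, D.herm]

lemma BS_unit : IsUnit D.BS := by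
  have := D.unit.map (lev : Laurent 8 →+* Sm 8).mapMatrix
  exact this

lemma BS_real : MReal D.BS := fun i j => lev_isReal (D.B i j)

lemma AS_real : MReal D.AS := fun i j => lev_isReal (D.A i j)

lemma AS_zero : mev 0 D.AS = 0 := by
  unfold AS
  rw [mev_lev_zero, D.zero]
  ext i j
  simp

lemma S_unit : IsUnit D.S := by
  rw [Matrix.isUnit_iff_isUnit_det]
  have h := congrArg Matrix.det D.diag
  rw [Matrix.det_mul, Matrix.det_mul, Matrix.det_diagonal] at h
  apply Ne.isUnit
  intro h0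
  rw [h0, mul_zero] at h
  refine absurd h.symm ?_
  change (∏ i, if i ∈ D.s then (-1 : ℝ) else 1) ≠ 0
  rw [Finset.prod_ne_zero_iff]
  intro i _
  by_cases hi : i ∈ D.s <;> simp [hi]

lemma conB_zero : mev 0 (conB D.BS D.S) =
    Matrix.diagonal fun i => if i ∈ D.s then (-1 : ℂ) else 1 := by
  unfold conB BS
  rw [mev_mul, mev_mul, mev_rMat, mev_rMat, mev_lev_zero]
  change cx D.Sᵀ * cx (D.B.map laug) * cx D.S = _
  rw [← cx_mul, ← cx_mul, D.diag]
  ext i j
  by_cases h : i = j
  · subst h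
    by_cases hi : i ∈ D.s <;> simp [cx, hi]
  · simp [cx, h]

lemma neg_quad (x : Fin 8 → ℝ) (v : Fin 8 → ℂ) :
    (star v ⬝ᵥ (mev x (D.ASᴴ * D.BS * D.AS)).mulVec v).re ≤ 0 := by
  have h1 : D.ASᴴ * D.BS * D.AS = -((D.K.map lev)ᴴ * D.K.map lev) := by
    unfold AS BS
    rw [map_lev_conjTranspose, map_lev_conjTranspose, ← map_lev_mul, ← map_lev_mul,
      ← map_lev_mul, D.neg]
    refine Matrix.ext fun i j => ?_
    exact map_neg lev _
  rw [h1, mev_neg, mev_mul, mev_conjTranspose, Matrix.neg_mulVec, dotProduct_neg,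
    Complex.neg_re, neg_nonpos]
  have h2 := (Matrix.posSemidef_conjTranspose_mul_self (mev x (D.K.map lev))).re_dotProduct_nonneg v
  exact h2

/-- the geometric core data of the interface data -/
noncomputable def toCore : CoreData ι where
  P := nP D.BS_herm D.BS_unit D.S_unit
  idem := nP_idem _ _ _
  herm := nP_herm _ _ _
  real := nP_real _ _ _ D.BS_real
  tr x := by
    rw [nP_trace D.BS_herm D.BS_unit D.S_unit D.conB_zero x, D.card]
    norm_num
  F := nF D.BS_herm D.BS_unit D.S_unit D.AS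
  Freal := nF_real _ _ _ D.BS_real D.AS_real
  PF := nP_mul_nF _ _ _ _
  inj x hx v hv := nF_inj D.BS_herm D.BS_unit D.S_unit (fun v => D.neg_quad x v)
    (fun v hv => D.inj x hx v hv) v hv
  F0 := nF_zero _ _ _ D.AS_zero
  lam := D.lam * D.S
  Q := 1
  hQ u hu := by
    rw [Matrix.one_mulVec]
    exact dotProduct_star_self_pos_iff.2 hu
  g := gR
  hg := gR_det
  first j := by
    have h1 := nF_deriv D.BS_herm D.BS_unit D.S_unit D.conB_zero D.AS_zero D.lam D.lamS j
    change cx (D.lam * D.S) * mev 0 (mD j _) = _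
    rw [h1]
    have h2 : mev 0 (mD j D.AS) = (2 * Real.pi * Complex.I : ℂ) • cx (D.A.map (lder j)) :=
      mev_lev_pD_zero j D.A
    rw [h2, Matrix.mul_smul, ← cx_mul]
    congr 2
    ext c l
    rw [D.first, MOct_eq]

lemma toCore_P : D.toCore.P = nP D.BS_herm D.BS_unit D.S_unit := rfl

end IfaceData

end Pool.Agent.PD4
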