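import Pool.Agent.PD4.Cert

/-!
# Project PD (MP_69cf13_gt): more integer certificates (helper74)
-/

namespace Pool.Agent.PD4

open Pool.Agent.H74

/-- `2 Y G⁻¹` in terms of the first seven columns of `TT` -/
def CC : Fin 7 → Fin 28 → ℤ := ![![2, 0, 0, 0, 0, 0, 0, 0, 0, 0, 0, 0, 0, 0, 0, 0, 0, 0, 0, 0, 0, 0, 0, 0, 0, 0, 0, 0],
  ![0, 1, 1, 0, 0, 0, 0, 0, 0, 0, 0, 0, 0, 0, 0, 0, 0, 0, 0, 0, 0, 0, 0, 0, 0, 0, 0, 0],
  ![0, 1, -1, 0, 0, 0, 0, 0, 0, 0, 0, 0, 0, 0, 0, 0, 0, 0, 0, 0, 0, 0, 0, 0, 0, 0, 0, 0],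
  ![0, 0, 0, 2, 0, 0, 0, 0, 0, 0, 0, 0, 0, 0, 0, 0, 0, 0, 0, 0, 0, 0, 0, 0, 0, 0, 0, 0],
  ![0, 0, 0, 0, 2, 0, 0, 0, 0, 0, 0, 0, 0, 0, 0, 0, 0, 0, 0, 0, 0, 0, 0, 0, 0, 0, 0, 0],
  ![0, 0, 0, 0, 0, 2, 0, 0, 0, 0, 0, 0, 0, 0, 0, 0, 0, 0, 0, 0, 0, 0, 0, 0, 0, 0, 0, 0],
  ![0, 0, 0, 0, 0, 0, 2, 0, 0, 0, 0, 0, 0, 0, 0, 0, 0, 0, 0, 0, 0, 0, 0, 0, 0, 0, 0, 0]]

/-- `60 / dd` -/
def qq : Fin 28 → ℤ := ![-15, -6, -10, -30, -30, -30, -30, -30, -15, -30, 30, 30, 30, 30, 10, 6, 30, 30, 30, 30, 30, 30, 30, 30, 30, 30, 30, 30]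

theorem cC : ∀ (k : Fin 7) (p : Fin 28), 2 * YGI k p = ∑ i, CC k i * TT p i := by
  decide +kernel

theorem CC_zero : ∀ (k : Fin 7) (i : Fin 28), 10 ≤ (i : ℕ) → CC k i = 0 := by decide +kernel

theorem cI : ∀ p q : Fin 28, (∑ i, TT p i * (qq i * GT q i)) = if p = q then 60 else 0 := by
  decide +kernel

theorem wdg_prs : ∀ p q : Fin 28, wdg q (TorusE8.prs p).1 (TorusE8.prs p).2 =
    if q = p then 1 else 0 := by
  decide +kernel

theorem prs_inj : ∀ p q : Fin 28, TorusE8.prs p = TorusE8.prs q → p = q := by decide +kernel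

theorem prs_surj : ∀ i j : Fin 8, i < j → ∃ p, TorusE8.prs p = (i, j) := by decide +kernel

/-- an antisymmetric function is determined by its values on the pairs `i < j` -/
theorem antisymm_sum {A : Type*} [AddCommGroup A] [IsAddTorsionFree A]
    (f : Fin 8 → Fin 8 → A) (hf : ∀ i j, f j i = -f i j) (i j : Fin 8) :
    f i j = ∑ p, wdg p i j • f (TorusE8.prs p).1 (TorusE8.prs p).2 := by
  rcases lt_trichotomy i j with h | h | h
  · obtain ⟨p, hp⟩ := prs_surj i j h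
    rw [Finset.sum_eq_single p]
    · rw [wdg, if_pos hp, hp, one_smul]
    · intro q _ hq
      have h1 : TorusE8.prs q ≠ (i, j) := fun h1 => hq (prs_inj _ _ (h1.trans hp.symm))
      have h2 : TorusE8.prs q ≠ (j, i) := by
        intro h2
        have := TorusE8.prs_lt q
        rw [h2] at this
        exact absurd h (not_lt.mpr this.le)
      rw [wdg, if_neg h1, if_neg h2, zero_smul]
    · intro h
      exact absurd (Finset.mem_univ _) h
  · subst h
    have h0 : f i i = 0 := self_eq_neg.mp (hf i i)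
    rw [h0, Finset.sum_eq_zero]
    intro q _
    have h1 : TorusE8.prs q ≠ (i, i) := by
      intro h2
      have := TorusE8.prs_lt q
      rw [h2] at this
      exact absurd this (lt_irrefl _)
    rw [wdg, if_neg h1, if_neg h1, zero_smul]
  · obtain ⟨p, hp⟩ := prs_surj j i h
    rw [Finset.sum_eq_single p]
    · have h1 : TorusE8.prs p ≠ (i, j) := by
        rw [hp]
        intro h1
        rw [Prod.mk.injEq] at h1
        exact absurd h1.2 (ne_of_gt h)
      rw [wdg, if_neg h1, if_pos hp, hp, neg_smul, one_smul, hf j i]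
    · intro q _ hq
      have h1 : TorusE8.prs q ≠ (j, i) := fun h1 => hq (prs_inj _ _ (h1.trans hp.symm))
      have h2 : TorusE8.prs q ≠ (i, j) := by
        intro h2
        have := TorusE8.prs_lt q
        rw [h2] at this
        exact absurd h (not_lt.mpr this.le)
      rw [wdg, if_neg h2, if_neg h1, zero_smul]
    · intro h
      exact absurd (Finset.mem_univ _) h

lemma cmp_swap (a b : ℕ) : TorusE8.cmp b a = -TorusE8.cmp a b := by
  unfold TorusE8.cmp
  rcases lt_trichotomy a b with h | h | h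
  · rw [if_neg (not_lt.mpr h.le), if_neg h.ne', if_pos h]
  · subst h
    simp
  · rw [if_pos h, if_neg (not_lt.mpr h.le), if_neg h.ne']
    rfl

lemma sum_map_neg' {α : Type*} (L : List α) (f g : α → ℤ) (h : ∀ t, f t = -g t) :
    (L.map f).sum = -(L.map g).sum := by
  induction L with
  | nil => simp
  | cons a L ih =>
    rw [List.map_cons, List.map_cons, List.sum_cons, List.sum_cons, h a, ih]
    ring

theorem omC_swap₁ (i j k l : Fin 8) : omC j i k l = -omC i j k l := by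
  unfold omC
  refine sum_map_neg' _ _ _ fun t => ?_
  simp only [TorusE8.sgnL_cons, List.map_cons, List.prod_cons, cmp_swap (i : ℕ) j]
  ring

theorem omC_swap₂ (i j k l : Fin 8) : omC i j l k = -omC i j k l := by
  unfold omC
  refine sum_map_neg' _ _ _ fun t => ?_
  simp only [TorusE8.sgnL_cons, List.map_cons, List.prod_cons, cmp_swap (k : ℕ) l]
  ring

theorem omC_prs (p q : Fin 28) : omC (TorusE8.prs p).1 (TorusE8.prs p).2 (TorusE8.prs q).1
    (TorusE8.prs q).2 = TorusE8.G p q :=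
  TorusE8.gramEntry_eq p q

theorem omC_eq (i j k l : Fin 8) : omC i j k l =
    ∑ p, ∑ q, wdg p i j * (wdg q k l * TorusE8.G p q) := by
  rw [antisymm_sum (fun i j => omC i j k l) (fun i j => omC_swap₁ i j k l) i j]
  refine Finset.sum_congr rfl fun p _ => ?_
  rw [antisymm_sum (fun k l => omC (TorusE8.prs p).1 (TorusE8.prs p).2 k l)
    (fun k l => omC_swap₂ _ _ k l) k l, Finset.smul_sum]
  refine Finset.sum_congr rfl fun q _ => ?_
  rw [omC_prs, smul_eq_mul, smul_eq_mul]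

end Pool.Agent.PD4
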