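import Pool.Agent.PD4.Ix.Laurent

/-!
# Project PD4: specialisation `t_j ↦ -1` of Laurent polynomials to slices (helper42)
-/

open Matrix
open scoped ContDiff

namespace Pool.Agent.PD4

variable {m n : ℕ}

/-- `(-1)^(sum of the exponents off the range of s)` -/
noncomputable def offSgn (s : Fin m ↪ Fin n) (k : Fin n → ℤ) : ℝ :=
  ∏ i, if i ∈ Set.range s then (1 : ℝ) else (-1) ^ (k i)

lemma offSgn_zero (s : Fin m ↪ Fin n) : offSgn s 0 = 1 := by
  classical
  unfold offSgn
  apply Finset.prod_eq_one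
  intro i _
  by_cases h : i ∈ Set.range s <;> simp [h]

lemma offSgn_add (s : Fin m ↪ Fin n) (k l : Fin n → ℤ) :
    offSgn s (k + l) = offSgn s k * offSgn s l := by
  classical
  unfold offSgn
  rw [← Finset.prod_mul_distrib]
  refine Finset.prod_congr rfl fun i _ => ?_
  by_cases h : i ∈ Set.range s
  · simp [h]
  · simp only [h, if_false, Pi.add_apply]
    exact zpow_add₀ (by norm_num) _ _

/-- the substitution `t_j ↦ t_i` if `j = s i`, `t_j ↦ -1` if `j` is not in the range of `s` -/
noncomputable def spec (s : Fin m ↪ Fin n) : Laurent n →+* Laurent m :=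
  ((AddMonoidAlgebra.lift ℝ (Laurent m) (Fin n → ℤ))
    { toFun := fun k => AddMonoidAlgebra.single (fun i => k.toAdd (s i)) (offSgn s k.toAdd)
      map_one' := by
        change AddMonoidAlgebra.single (fun i => (0 : Fin n → ℤ) (s i)) (offSgn s 0) = 1
        rw [offSgn_zero]
        rfl
      map_mul' := fun k l => by
        change AddMonoidAlgebra.single (fun i => (k.toAdd + l.toAdd) (s i))
          (offSgn s (k.toAdd + l.toAdd)) = _
        rw [offSgn_add, AddMonoidAlgebra.single_mul_single]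
        rfl }).toRingHom

lemma spec_single (s : Fin m ↪ Fin n) (k : Fin n → ℤ) (c : ℝ) :
    spec s (AddMonoidAlgebra.single k c) =
      AddMonoidAlgebra.single (fun i => k (s i)) (c * offSgn s k) := by
  change (AddMonoidAlgebra.lift ℝ (Laurent m) (Fin n → ℤ)) _ (AddMonoidAlgebra.single k c) = _
  rw [AddMonoidAlgebra.lift_single]
  change c • AddMonoidAlgebra.single (fun i => k (s i)) (offSgn s k) = _
  rw [AddMonoidAlgebra.smul_single]
  rfl

/-- the base point of the slice: `1/2` off the range of `s` -/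
noncomputable def halfOff (s : Fin m ↪ Fin n) : Fin n → ℝ :=
  fun i => if i ∈ Set.range s then 0 else 1 / 2

/-- the embedding of the slice -/
noncomputable def slEmb (s : Fin m ↪ Fin n) (y : Fin m → ℝ) : Fin n → ℝ :=
  fun i => ∑ j, if s j = i then y j else 0

lemma slEmb_apply (s : Fin m ↪ Fin n) (y : Fin m → ℝ) (j : Fin m) : slEmb s y (s j) = y j := by
  unfold slEmb
  rw [Finset.sum_eq_single j]
  · simp
  · intro i _ hij
    rw [if_neg]
    exact fun h => hij (s.injective h)
  · simp

lemma slEmb_off (s : Fin m ↪ Fin n) (y : Fin m → ℝ) (i : Fin n) (h : i ∉ Set.range s) :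
    slEmb s y i = 0 := by
  unfold slEmb
  apply Finset.sum_eq_zero
  intro j _
  rw [if_neg]
  exact fun h' => h ⟨j, h'⟩

lemma exp_pi_int (k : ℤ) : Complex.exp (2 * Real.pi * Complex.I * ((k : ℂ) * (1 / 2 : ℝ))) =
    (-1) ^ k := by
  have h : 2 * (Real.pi : ℂ) * Complex.I * ((k : ℂ) * ((1 / 2 : ℝ) : ℂ)) =
      (k : ℂ) * (Real.pi * Complex.I) := by
    push_cast
    ring
  rw [h, Complex.exp_int_mul, Complex.exp_pi_mul_I]

/-- evaluation of the exponential on the slice -/
lemma ex_slice (s : Fin m ↪ Fin n) (k : Fin n → ℤ) (y : Fin m → ℝ) :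
    (Sm.ex k : Sm n).1 (slEmb s y + halfOff s) =
      (offSgn s k : ℂ) * (Sm.ex (fun i => k (s i)) : Sm m).1 y := by
  classical
  change Complex.exp _ = (offSgn s k : ℂ) * Complex.exp _
  have h1 : ∀ i : Fin n, (k i : ℂ) * (((slEmb s y + halfOff s) i : ℝ) : ℂ) =
      (k i : ℂ) * (slEmb s y i : ℂ) + (k i : ℂ) * (halfOff s i : ℂ) := by
    intro i
    rw [Pi.add_apply]
    push_cast
    ring
  rw [Finset.sum_congr rfl fun i _ => h1 i, Finset.sum_add_distrib, mul_add, Complex.exp_add]
  have h2 : ∑ i, (k i : ℂ) * (slEmb s y i : ℂ) = ∑ j, (k (s j) : ℂ) * (y j : ℂ) := by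
    have e : ∑ i, (k i : ℂ) * (slEmb s y i : ℂ) =
        ∑ i ∈ Finset.univ.map s, (k i : ℂ) * (slEmb s y i : ℂ) := by
      symm
      apply Finset.sum_subset (Finset.subset_univ _)
      intro i _ hi
      rw [slEmb_off s y i (by
        rintro ⟨j, rfl⟩
        exact hi (Finset.mem_map_of_mem _ (Finset.mem_univ j)))]
      simp
    rw [e, Finset.sum_map]
    refine Finset.sum_congr rfl fun j _ => ?_
    rw [slEmb_apply]
  have h3 : Complex.exp (2 * Real.pi * Complex.I * ∑ i, (k i : ℂ) * (halfOff s i : ℂ)) =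
      (offSgn s k : ℂ) := by
    rw [Finset.mul_sum, Complex.exp_sum]
    unfold offSgn
    rw [Complex.ofReal_prod]
    refine Finset.prod_congr rfl fun i _ => ?_
    unfold halfOff
    by_cases h : i ∈ Set.range s
    · simp [h]
    · simp only [h, if_false]
      rw [exp_pi_int]
      push_cast
      rfl
  rw [h2, h3, mul_comm]

/-- evaluation of the specialised Laurent polynomial -/
lemma lev_spec (s : Fin m ↪ Fin n) (f : Laurent n) (y : Fin m → ℝ) :
    (lev (spec s f)).1 y = (lev f).1 (slEmb s y + halfOff s) := by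
  have h : ((Sm.ev y : Sm m →⋆ₐ[ℂ] ℂ) : Sm m →+* ℂ).comp (lev.comp (spec s)) =
      ((Sm.ev (slEmb s y + halfOff s) : Sm n →⋆ₐ[ℂ] ℂ) : Sm n →+* ℂ).comp lev := by
    apply AddMonoidAlgebra.ringHom_ext
    · intro r
      change (lev (spec s (AddMonoidAlgebra.single 0 r))).1 y = (lev (AddMonoidAlgebra.single 0 r)).1 _
      rw [spec_single, lev_single, lev_single]
      change ((r * offSgn s 0 : ℝ) : ℂ) * (Sm.ex (fun _ => 0) : Sm m).1 y =
        (r : ℂ) * (Sm.ex 0 : Sm n).1 _
      rw [ex_slice]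
      push_cast
      rw [mul_assoc]
      rfl
    · intro k
      change (lev (spec s (AddMonoidAlgebra.single k 1))).1 y = (lev (AddMonoidAlgebra.single k 1)).1 _
      rw [spec_single, lev_single, lev_single]
      change ((1 * offSgn s k : ℝ) : ℂ) * (Sm.ex (fun i => k (s i)) : Sm m).1 y =
        ((1 : ℝ) : ℂ) * (Sm.ex k : Sm n).1 _
      rw [ex_slice]
      push_cast
      ring
  exact RingHom.congr_fun h f

end Pool.Agent.PD4
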