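import Pool.Agent.PD4.Adapt
import Pool.Agent.PD4.SpecL
import Pool.Agent.PD4.Ix.Parity

/-!
# Project PD4: parity of the Chern numbers of the negative bundle and of its slices (helper42)
-/

open Matrix
open scoped ComplexOrder ContDiff

namespace Pool.Agent.PD4

section

variable {ι : Type*} [Fintype ι] [DecidableEq ι]

lemma lev_spec' {m n : ℕ} (s : Fin m ↪ Fin n) (f : Laurent n) :
    lev (spec s f) = Sm.restrAt s (halfOff s) (lev f) := by
  apply Subtype.ext
  funext y
  rw [lev_spec, Sm.restrAt_apply, add_comm]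
  rfl

/-- `negProj` of a slice -/
lemma negProj_restrAt {m n : ℕ} (s : Fin m ↪ Fin n) (a : Fin n → ℝ) (M : Matrix ι ι (Sm n))
    (hM : Mᴴ = M) (hu : IsUnit M)
    (hM' : (M.map (Sm.restrAt s a))ᴴ = M.map (Sm.restrAt s a))
    (hu' : IsUnit (M.map (Sm.restrAt s a))) :
    (negProj M hM hu).map (Sm.restrAt s a) = negProj (M.map (Sm.restrAt s a)) hM' hu' := by
  apply mev_injective
  intro y
  rw [mev_negProj]
  rfl

/-- real constant matrices over the Laurent ring -/
noncomputable def lMat {n : ℕ} (C : Matrix ι ι ℝ) : Matrix ι ι (Laurent n) :=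
  C.map (algebraMap ℝ (Laurent n))

lemma lev_algebraMap {n : ℕ} (r : ℝ) :
    lev (algebraMap ℝ (Laurent n) r) = algebraMap ℂ (Sm n) (r : ℂ) := by
  have h : algebraMap ℝ (Laurent n) r = AddMonoidAlgebra.single 0 r := rfl
  rw [h, lev_single, ex_zero, Algebra.algebraMap_eq_smul_one]

lemma lMat_map_lev {n : ℕ} (C : Matrix ι ι ℝ) :
    (lMat (n := n) C).map lev = rMat C :=
  Matrix.ext fun i j => lev_algebraMap (C i j)

lemma lMat_isUnit {n : ℕ} {C : Matrix ι ι ℝ} (h : IsUnit C) : IsUnit (lMat (n := n) C) :=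
  h.map (algebraMap ℝ (Laurent n)).mapMatrix

end

namespace IfaceData

variable {ι : Type} [Fintype ι] [DecidableEq ι] (D : IfaceData ι)

/-- the congruent Laurent matrix `Sᵀ B S` -/
noncomputable def BL : Matrix ι ι (Laurent 8) := lMat D.Sᵀ * D.B * lMat D.S

lemma BL_map : D.BL.map lev = conB D.BS D.S := by
  unfold BL conB BS
  rw [map_lev_mul, map_lev_mul, lMat_map_lev, lMat_map_lev]

lemma BL_unit : IsUnit D.BL := by
  have h1 : IsUnit D.Sᵀ := by
    rw [Matrix.isUnit_iff_isUnit_det, Matrix.det_transpose]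
    exact (Matrix.isUnit_iff_isUnit_det _).1 D.S_unit
  exact ((lMat_isUnit h1).mul D.unit).mul (lMat_isUnit D.S_unit)

/-- the negative bundle of the interface data -/
noncomputable def PN : Matrix ι ι (Sm 8) := nP D.BS_herm D.BS_unit D.S_unit

/-- **parity on the 8-torus** -/
theorem parity8 : ∃ z : ℤ, evenCh 4 D.PN = 2 * z := by
  have h := parity 4 (by decide) (by decide) (ι := ι) D.BL D.BL_unit
    (by
      change (D.BL.map lev)ᴴ = D.BL.map lev
      rw [D.BL_map]
      exact conB_herm D.BS_herm D.S)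
    (by
      change IsUnit (D.BL.map lev)
      rw [D.BL_map]
      exact conB_isUnit D.BS_unit D.S_unit)
  obtain ⟨z, hz⟩ := h
  refine ⟨z, ?_⟩
  rw [← hz]
  have e : ∀ (M N : Matrix ι ι (Sm 8)) (h1 : Mᴴ = M) (h2 : IsUnit M) (h3 : Nᴴ = N)
      (h4 : IsUnit N), M = N → negProj M h1 h2 = negProj N h3 h4 := by
    intro M N h1 h2 h3 h4 h
    subst h
    rfl
  have e2 : D.PN = negProj (D.BL.map lev) (by
      rw [D.BL_map]
      exact conB_herm D.BS_herm D.S) (by
      rw [D.BL_map]
      exact conB_isUnit D.BS_unit D.S_unit) :=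
    e _ _ (conB_herm D.BS_herm D.S) (conB_isUnit D.BS_unit D.S_unit) _ _ D.BL_map.symm
  rw [e2]

/-- **parity on the slices** -/
theorem parity4 (s : Fin 4 ↪ Fin 8) :
    ∃ z : ℤ, evenCh 2 (D.PN.map (Sm.restrAt s (halfOff s))) = 2 * z := by
  set H : Matrix ι ι (Laurent 4) := D.BL.map (spec s) with hH
  have hmap : H.map lev = (conB D.BS D.S).map (Sm.restrAt s (halfOff s)) := by
    rw [← D.BL_map]
    exact Matrix.ext fun i j => lev_spec' s (D.BL i j)
  have hu : IsUnit H := D.BL_unit.map (spec s).mapMatrix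
  have hh : (H.map lev)ᴴ = H.map lev := by
    rw [hmap]
    have h1 := conB_herm D.BS_herm D.S
    refine Matrix.ext fun i j => ?_
    have h2 := congrFun (congrFun h1 i) j
    rw [Matrix.conjTranspose_apply] at h2 ⊢
    rw [Matrix.map_apply, Matrix.map_apply, ← map_star, h2]
  have hu' : IsUnit (H.map lev) := hu.map (lev : Laurent 4 →+* Sm 4).mapMatrix
  obtain ⟨z, hz⟩ := parity 2 (by decide) (by decide) (ι := ι) H hu hh hu'
  refine ⟨z, ?_⟩
  rw [← hz]
  congr 1
  unfold PN nP
  apply mev_injective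
  intro y
  change Pool.Agent.H95.PD.negP _ = Pool.Agent.H95.PD.negP _
  rw [hmap]
  rfl

end IfaceData

end Pool.Agent.PD4
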