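import Pool.Agent.PD4.AsmCore
import Pool.Agent.PD4.Adapt
import Pool.Agent.PD4.SlicePar
import Pool.Agent.PD4.Rk3.Final

/-!
# Project PD: there are no interface data
-/

namespace Pool.Agent.PD4

/-- **the interface theorem**: no data as produced by the algebra block exist -/
theorem iface_false {ι : Type} [Fintype ι] [DecidableEq ι] (D : IfaceData ι) : False :=
  core_false D.toCore rank3 D.parity8 fun s => ⟨halfOff s, D.parity4 s⟩

end Pool.Agent.PD4
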