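import Pool.Agent.PD4.Alg.Main
import Pool.Agent.PD4.Asm

/-!
# Project PD4: no Poincare duality data over `ℤ[ℤ⁸]` with form `φ_ω` (helper85)
-/

namespace Pool.Agent.PD4

open Matrix Alg LauR

/-- **there are no duality data with form `φ_ω` and `H²` rationally spanned by the products** -/
theorem pd_false {I : Type} [Fintype I] [DecidableEq I] (X : PDData ℤ 8 I)
    (hform : ∀ i j k l, X.form i j k l = omC i j k l)
    (hsp : ∀ z : I → ℤ, (∀ i, z i ≠ 0 → X.deg i = 2) → (X.D.d.map eps)ᵀ *ᵥ z = 0 →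
      ∃ (N : ℤ) (α : Fin 8 → Fin 8 → ℤ) (x : I → ℤ), N ≠ 0 ∧
        N • z = ∑ u, ∑ v, α u v • X.c u v + (X.D.d.map eps)ᵀ *ᵥ x) : False := by
  obtain ⟨D⟩ := exists_iface_int X hform hsp
  exact iface_false D

end Pool.Agent.PD4
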