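import Pool.Agent.PD4.Geo.Out
import Pool.Agent.PD4.Iface

/-!
# Project PD: final count
-/

open Matrix

namespace Pool.Agent.PD4

variable {ι : Type*} [Fintype ι] [DecidableEq ι]

/-- the final count: core data with even Chern numbers are impossible -/
theorem core_false (C : CoreData ι)
    (rank3 : ∀ P : Matrix ι ι (Sm 8), P * P = P → Pᴴ = P → MReal P →
      (∀ x, (mev x P).trace = 3) →
      (∀ s : Fin 4 ↪ Fin 8, ∃ (a : Fin 8 → ℝ) (z : ℤ),
        evenCh 2 (P.map (Sm.restrAt s a)) = 2 * z) → ∃ S : ℤ, 3 * evenCh 4 P = 2 * S)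
    (h8 : ∃ z : ℤ, evenCh 4 C.P = 2 * z)
    (h4 : ∀ s : Fin 4 ↪ Fin 8, ∃ (a : Fin 8 → ℝ) (z : ℤ),
      evenCh 2 (C.P.map (Sm.restrAt s a)) = 2 * z) : False := by
  obtain ⟨PE, PJ, hsum, hE, hEh, hJ, hJh, hEJ, hJE, hEr, hEt, hJ4, hJ2⟩ := core_out C
  obtain ⟨z, hz⟩ := h8
  obtain ⟨S, hS⟩ := rank3 PE hE hEh hEr hEt fun s => by
    obtain ⟨a, z, hz⟩ := h4 s
    refine ⟨a, z, ?_⟩
    have e : C.P.map (Sm.restrAt s a) = PE.map (Sm.restrAt s a) + PJ.map (Sm.restrAt s a) := by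
      rw [← hsum]
      exact Matrix.map_add _ (map_add _) _ _
    have hm : ∀ X Y : Matrix ι ι (Sm 8), (X * Y).map (Sm.restrAt s a) =
        X.map (Sm.restrAt s a) * Y.map (Sm.restrAt s a) := fun X Y =>
      Matrix.map_mul
    have h0 : (0 : Matrix ι ι (Sm 8)).map (Sm.restrAt s a) = 0 :=
      Matrix.map_zero _ (map_zero _)
    have h1 : PE.map (Sm.restrAt s a) * PE.map (Sm.restrAt s a) = PE.map (Sm.restrAt s a) := by
      rw [← hm, hE]
    have h2 : PJ.map (Sm.restrAt s a) * PJ.map (Sm.restrAt s a) = PJ.map (Sm.restrAt s a) := by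
      rw [← hm, hJ]
    have h3 : PE.map (Sm.restrAt s a) * PJ.map (Sm.restrAt s a) = 0 := by rw [← hm, hEJ, h0]
    have h4 : PJ.map (Sm.restrAt s a) * PE.map (Sm.restrAt s a) = 0 := by rw [← hm, hJE, h0]
    rw [e, evenCh_add 2 h1 h2 h3 h4, hJ2, add_zero] at hz
    exact hz
  have h1 : evenCh 4 C.P = evenCh 4 PE + evenCh 4 PJ := by
    rw [← hsum]
    exact evenCh_add 4 hE hJ hEJ hJE
  rw [hz] at h1
  rcases hJ4 with h | h
  · rw [h] at h1
    have h2 : (2 * S : ℂ) = 3 * (2 * z - 1) := by rw [← hS, h1]; ring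
    have h3 : (2 * S : ℤ) = 3 * (2 * z - 1) := by exact_mod_cast h2
    omega
  · rw [h] at h1
    have h2 : (2 * S : ℂ) = 3 * (2 * z + 1) := by rw [← hS]; rw [h1]; ring
    have h3 : (2 * S : ℤ) = 3 * (2 * z + 1) := by exact_mod_cast h2
    omega

end Pool.Agent.PD4
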