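import Pool.Agent.PD4.Oct
import Pool.Agent.H74.TorusE8

/-!
# Project PD (MP_69cf13_gt): the integer certificate for the landed class (helper74)

`TorusE8.G` is the Gram matrix of `φ_ω` in the basis `x_i x_j`, `(i, j) = TorusE8.prs p`.
* `cG`: `G GI = 1`;
* `cY`: the matrix `Y` (`7 × 28`) of `u ∧ v ↦ Im (conj (g u) (g v))`, `g = gOct`;
* `cT`: the columns of `TT` are a `G`-orthogonal basis of `ℚ²⁸`, the first ten are negative, the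
  last eighteen are positive and lie in the kernel of `Y`; the first seven span `G⁻¹ Yᵀ ℚ⁷`.
-/

namespace Pool.Agent.PD4

open Pool.Agent.H74

/-- the inverse of the Gram matrix `TorusE8.G` -/
def GI : Fin 28 → Fin 28 → ℤ := ![![0, 0, 0, 0, 0, 0, 0, 0, 0, 0, 0, 0, 0, 0, 0, 0, 0, 0, 0, 0, 0, 0, -1, -1, -1, -1, 0, 0],
  ![0, 0, 0, 0, 0, 0, 0, 0, 0, 0, 0, 0, 0, 0, 0, 0, 0, 0, 0, 0, 0, 0, 0, -1, -2, -1, 0, 1],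
  ![0, 0, 0, 0, 0, 0, 0, 0, 0, 0, 0, 0, 0, 0, 0, 0, 0, 0, 0, 0, 0, 0, -3, 1, 0, -2, -1, -1],
  ![0, 0, 0, 60, 20, -42, -26, 0, 0, 28, 12, -19, 2, 0, -28, 14, 23, -6, 25, -9, -2, 17, 0, 0, 0, 0, 0, 0],
  ![0, 0, 0, 20, 8, -14, -10, 0, 0, 10, 5, -7, 0, 0, -13, 4, 10, -1, 11, -2, -2, 5, 0, 0, 0, 0, 0, 0],
  ![0, 0, 0, -42, -14, 30, 18, 0, 0, -19, -8, 13, -2, 0, 19, -10, -16, 4, -17, 7, 1, -12, 0, 0, 0, 0, 0, 0],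
  ![0, 0, 0, -26, -10, 18, 14, 0, 0, -14, -7, 10, 1, 0, 18, -5, -13, 1, -14, 2, 2, -7, 0, 0, 0, 0, 0, 0],
  ![0, 0, 0, 0, 0, 0, 0, 0, 0, 0, 0, 0, 0, 0, 0, 0, 0, 0, 0, 0, 0, 0, -2, 0, -1, -2, -1, 0],
  ![0, 0, 0, 0, 0, 0, 0, 0, 0, 0, 0, 0, 0, 0, 0, 0, 0, 0, 0, 0, 0, 0, -1, 1, 2, 0, 0, -1],
  ![0, 0, 0, 28, 10, -19, -14, 0, 0, 16, 7, -11, -1, 0, -17, 6, 13, -2, 15, -2, -3, 7, 0, 0, 0, 0, 0, 0],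
  ![0, 0, 0, 12, 5, -8, -7, 0, 0, 7, 4, -5, -1, 0, -10, 2, 7, 0, 7, 0, -1, 3, 0, 0, 0, 0, 0, 0],
  ![0, 0, 0, -19, -7, 13, 10, 0, 0, -11, -5, 8, 1, 0, 12, -4, -9, 1, -10, 1, 2, -5, 0, 0, 0, 0, 0, 0],
  ![0, 0, 0, 2, 0, -2, 1, 0, 0, -1, -1, 1, 2, 0, 3, 1, -1, -1, -1, -2, 1, 1, 0, 0, 0, 0, 0, 0],
  ![0, 0, 0, 0, 0, 0, 0, 0, 0, 0, 0, 0, 0, 0, 0, 0, 0, 0, 0, 0, 0, 0, 1, -2, -1, 0, 1, 0],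
  ![0, 0, 0, -28, -13, 19, 18, 0, 0, -17, -10, 12, 3, 0, 28, -4, -19, -1, -20, -1, 4, -7, 0, 0, 0, 0, 0, 0],
  ![0, 0, 0, 14, 4, -10, -5, 0, 0, 6, 2, -4, 1, 0, -4, 4, 4, -2, 5, -3, 0, 4, 0, 0, 0, 0, 0, 0],
  ![0, 0, 0, 23, 10, -16, -13, 0, 0, 13, 7, -9, -1, 0, -19, 4, 14, 0, 15, -1, -3, 6, 0, 0, 0, 0, 0, 0],
  ![0, 0, 0, -6, -1, 4, 1, 0, 0, -2, 0, 1, -1, 0, -1, -2, 0, 2, 0, 2, -1, -2, 0, 0, 0, 0, 0, 0],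
  ![0, 0, 0, 25, 11, -17, -14, 0, 0, 15, 7, -10, -1, 0, -20, 5, 15, 0, 20, -1, -6, 5, 0, 0, 0, 0, 0, 0],
  ![0, 0, 0, -9, -2, 7, 2, 0, 0, -2, 0, 1, -2, 0, -1, -3, -1, 2, -1, 4, -1, -3, 0, 0, 0, 0, 0, 0],
  ![0, 0, 0, -2, -2, 1, 2, 0, 0, -3, -1, 2, 1, 0, 4, 0, -3, -1, -6, -1, 4, 1, 0, 0, 0, 0, 0, 0],
  ![0, 0, 0, 17, 5, -12, -7, 0, 0, 7, 3, -5, 1, 0, -7, 4, 6, -2, 5, -3, 1, 6, 0, 0, 0, 0, 0, 0],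
  ![-1, 0, -3, 0, 0, 0, 0, -2, -1, 0, 0, 0, 0, 1, 0, 0, 0, 0, 0, 0, 0, 0, 0, 0, 0, 0, 0, 0],
  ![-1, -1, 1, 0, 0, 0, 0, 0, 1, 0, 0, 0, 0, -2, 0, 0, 0, 0, 0, 0, 0, 0, 0, 0, 0, 0, 0, 0],
  ![-1, -2, 0, 0, 0, 0, 0, -1, 2, 0, 0, 0, 0, -1, 0, 0, 0, 0, 0, 0, 0, 0, 0, 0, 0, 0, 0, 0],
  ![-1, -1, -2, 0, 0, 0, 0, -2, 0, 0, 0, 0, 0, 0, 0, 0, 0, 0, 0, 0, 0, 0, 0, 0, 0, 0, 0, 0],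
  ![0, 0, -1, 0, 0, 0, 0, -1, 0, 0, 0, 0, 0, 1, 0, 0, 0, 0, 0, 0, 0, 0, 0, 0, 0, 0, 0, 0],
  ![0, 1, -1, 0, 0, 0, 0, 0, -1, 0, 0, 0, 0, 0, 0, 0, 0, 0, 0, 0, 0, 0, 0, 0, 0, 0, 0, 0]]

/-- the matrix of `u ∧ v ↦ Im (conj (g u) (g v))` -/
def Y7 : Fin 7 → Fin 28 → ℤ := ![![-4, 0, 0, 0, 0, 0, 0, 0, 0, 0, 0, 0, 0, 2, 0, 0, 0, 0, 0, 0, 0, 0, -1, 0, 0, 1, 0, 1],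
  ![0, 4, 0, 0, 0, 0, 0, 0, 2, 0, 0, 0, 0, 0, 0, 0, 0, 0, 0, 0, 0, 0, 0, 0, -1, 1, -1, -1],
  ![0, -2, -2, 0, 0, 0, 0, 5, 1, 0, 0, 0, 0, 0, 0, 0, 0, 0, 0, 0, 0, 0, 0, 1, -1, 0, 1, -1],
  ![0, 0, 0, 0, 0, 0, 2, 0, 0, 0, 0, -2, 1, 0, -2, -1, -2, 0, 0, -1, 0, 0, 0, 0, 0, 0, 0, 0],
  ![0, 0, 0, 0, 0, 2, -2, 0, 0, 0, 0, -1, 3, 0, -1, 2, -1, 0, -1, 0, -1, 0, 0, 0, 0, 0, 0, 0],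
  ![0, 0, 0, -2, 0, -2, 0, 0, 0, 1, 2, 1, 0, 0, 0, 0, -1, -1, 0, 0, -1, 1, 0, 0, 0, 0, 0, 0],
  ![0, 0, 0, 0, 2, 0, 0, 0, 0, 2, -1, 2, 0, 0, 0, 0, -2, 3, 0, 0, 0, 1, 0, 0, 0, 0, 0, 0]]

/-- `Y G⁻¹` -/
def YGI : Fin 7 → Fin 28 → ℤ := ![![0, 0, 0, 0, 0, 0, 0, 0, 0, 0, 0, 0, 0, -1, 0, 0, 0, 0, 0, 0, 0, 0, 6, 0, 2, 4, 2, 0],
  ![0, 0, 0, 0, 0, 0, 0, 0, -1, 0, 0, 0, 0, 0, 0, 0, 0, 0, 0, 0, 0, 0, -2, -2, -4, -4, 0, 2],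
  ![0, 0, 1, 0, 0, 0, 0, 0, 0, 0, 0, 0, 0, 0, 0, 0, 0, 0, 0, 0, 0, 0, -5, 1, 1, -4, -3, -1],
  ![0, 0, 0, -7, -2, 5, 2, 0, 0, -3, -1, 2, -1, 0, 2, -2, -2, 1, -3, 3, 0, -2, 0, 0, 0, 0, 0, 0],
  ![0, 0, 0, 3, 1, -2, -2, 0, 0, 2, 1, -2, -1, 0, -2, 0, 1, 0, 2, 1, 0, 1, 0, 0, 0, 0, 0, 0],
  ![0, 0, 0, -1, -1, 1, 1, 0, 0, 0, -1, 0, 0, 0, 2, 0, -1, 0, -1, 0, 0, -1, 0, 0, 0, 0, 0, 0],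
  ![0, 0, 0, -1, -1, 0, 1, 0, 0, -2, -1, 1, 1, 0, 2, 0, -1, 0, 0, -1, -1, -1, 0, 0, 0, 0, 0, 0]]

/-- the columns are an orthogonal basis -/
def TT : Fin 28 → Fin 28 → ℤ := ![![0, 0, 0, 0, 0, 0, 0, 0, -2, 0, 1, 0, 0, 1, 0, 0, 0, 0, 0, 0, 0, 0, 0, 0, 0, 0, 0, 0],
  ![0, 0, 0, 0, 0, 0, 0, 0, 0, -1, 0, 1, 0, 0, 0, 0, 0, 0, 0, 0, 0, 0, 0, 0, 0, 0, 0, 0],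
  ![0, 1, -1, 0, 0, 0, 0, 2, 0, 1, 0, -1, 2, 0, 1, 1, 0, 0, 0, 0, 0, 0, 0, 0, 0, 0, 0, 0],
  ![0, 0, 0, -7, 3, -1, -1, 0, 0, 0, 0, 0, 0, 0, 0, 0, 0, 0, 0, 0, 2, -6, -4, -8, -1, -1, 7, -3],
  ![0, 0, 0, -2, 1, -1, -1, 0, 0, 0, 0, 0, 0, 0, 0, 0, 0, 0, 1, 0, 1, -1, -2, -3, -1, -1, 2, -1],
  ![0, 0, 0, 5, -2, 1, 0, 0, 0, 0, 0, 0, 0, 0, 0, 0, 0, 0, 0, 0, -2, 4, 2, 6, 1, 0, -5, 2],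
  ![0, 0, 0, 2, -2, 1, 1, 0, 0, 0, 0, 0, 0, 0, 0, 0, 0, 0, 0, 1, -1, 1, 3, 4, 1, 1, -2, 2],
  ![0, 0, 0, 0, 0, 0, 0, 1, 0, 0, 0, 0, 1, 0, 0, 0, 0, 0, 0, 0, 0, 0, 0, 0, 0, 0, 0, 0],
  ![0, -1, -1, 0, 0, 0, 0, 0, 0, 1, 0, -1, 0, 0, 1, -1, 0, 0, 0, 0, 0, 0, 0, 0, 0, 0, 0, 0],
  ![0, 0, 0, -3, 2, 0, -2, 0, 0, 0, 0, 0, 0, 0, 0, 0, 1, 1, 0, -1, 0, -2, -3, -4, 0, -2, 3, -2],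
  ![0, 0, 0, -1, 1, -1, -1, 0, 0, 0, 0, 0, 0, 0, 0, 0, 0, 0, 0, 0, 0, 0, -2, -2, -1, -1, 1, -1],
  ![0, 0, 0, 2, -2, 0, 1, 0, 0, 0, 0, 0, 0, 0, 0, 0, 0, -1, 0, 1, 0, 1, 2, 3, 0, 1, -2, 2],
  ![0, 0, 0, -1, -1, 0, 1, 0, 0, 0, 0, 0, 0, 0, 0, 0, 0, 0, 0, 1, 1, -1, 1, 0, 0, 1, 1, 1],
  ![-1, 0, 0, 0, 0, 0, 0, 0, -3, 0, 1, 0, 0, 2, 0, 0, 0, 0, 0, 0, 0, 0, 0, 0, 0, 0, 0, 0],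
  ![0, 0, 0, 2, -2, 2, 2, 0, 0, 0, 0, 0, 0, 0, 0, 0, -1, 1, -1, 1, -1, -1, 5, 5, 2, 2, -2, 2],
  ![0, 0, 0, -2, 0, 0, 0, 0, 0, 0, 0, 0, 0, 0, 0, 0, 0, 0, 0, 0, 0, -2, 0, -2, 0, 0, 2, 0],
  ![0, 0, 0, -2, 1, -1, -1, 0, 0, 0, 0, 0, 0, 0, 0, 0, 1, 0, 1, 0, 1, 0, -3, -4, -1, -1, 2, -1],
  ![0, 0, 0, 1, 0, 0, 0, 0, 0, 0, 0, 0, 0, 0, 0, 0, 0, 0, 0, 0, 0, 2, 0, 0, 0, 0, -1, 0],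
  ![0, 0, 0, -3, 2, -1, 0, 0, 0, 0, 0, 0, 0, 0, 0, 0, 0, 0, 1, -1, 2, 0, -3, -5, 1, -2, 3, 0],
  ![0, 0, 0, 3, 1, 0, -1, 0, 0, 0, 0, 0, 0, 0, 0, 0, 0, 0, 0, -1, -1, 3, -1, 2, 0, -1, -1, -1],
  ![0, 0, 0, 0, 0, 0, -1, 0, 0, 0, 0, 0, 0, 0, 0, 0, 0, 0, -1, 0, -1, -1, 0, 1, -2, 1, 0, 0],
  ![0, 0, 0, -2, 1, -1, -1, 0, 0, 0, 0, 0, 0, 0, 0, 0, 0, 0, 0, 0, 0, -2, -2, -2, -1, 1, 2, -1],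
  ![6, -7, 3, 0, 0, 0, 0, 0, 0, 1, -3, -1, -4, 1, -3, 3, 0, 0, 0, 0, 0, 0, 0, 0, 0, 0, 0, 0],
  ![0, -1, -3, 0, 0, 0, 0, -1, -2, -1, 1, -1, -1, -1, 3, -1, 0, 0, 0, 0, 0, 0, 0, 0, 0, 0, 0, 0],
  ![2, -3, -5, 0, 0, 0, 0, 0, -2, -2, 0, -2, -2, 0, 5, -3, 0, 0, 0, 0, 0, 0, 0, 0, 0, 0, 0, 0],
  ![4, -8, 0, 0, 0, 0, 0, 0, -2, 0, -1, -2, -4, 1, 0, 2, 0, 0, 0, 0, 0, 0, 0, 0, 0, 0, 0, 0],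
  ![2, -3, 3, 0, 0, 0, 0, 0, 0, -1, -1, 1, -2, 1, 0, 2, 0, 0, 0, 0, 0, 0, 0, 0, 0, 0, 0, 0],
  ![0, 1, 3, 0, 0, 0, 0, 0, 0, 1, 0, 1, 0, 0, -3, 1, 0, 0, 0, 0, 0, 0, 0, 0, 0, 0, 0, 0]]

/-- the norms of the columns of `TT` -/
def dd : Fin 28 → ℤ := ![-4, -10, -6, -2, -2, -2, -2, -2, -4, -2, 2, 2, 2, 2, 6, 10, 2, 2, 2, 2, 2, 2, 2, 2, 2, 2, 2, 2]

/-- coefficient of `x_j x_l` on the basis vector `x_{p.1} x_{p.2}` -/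
def wdg (p : Fin 28) (j l : Fin 8) : ℤ :=
  if TorusE8.prs p = (j, l) then 1 else if TorusE8.prs p = (l, j) then -1 else 0

theorem cG : ∀ i j : Fin 28, (∑ k, TorusE8.G i k * GI k j) = if i = j then 1 else 0 := by
  decide +kernel

theorem cYGI : ∀ (k : Fin 7) (q : Fin 28), (∑ p, YGI k p * TorusE8.G p q) = Y7 k q := by
  decide +kernel

/-- the Gram matrix of the columns of `TT`, auxiliary product `G TT` -/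
def GT : Fin 28 → Fin 28 → ℤ := ![![-4, 0, 0, 0, 0, 0, 0, 1, -2, 0, 3, 0, 1, 1, 0, 0, 0, 0, 0, 0, 0, 0, 0, 0, 0, 0, 0, 0],
  ![0, 2, 6, 0, 0, 0, 0, -1, 0, -2, 0, 4, -1, 0, 0, 2, 0, 0, 0, 0, 0, 0, 0, 0, 0, 0, 0, 0],
  ![0, -2, 2, 0, 0, 0, 0, -1, 0, -1, 0, 1, -1, 0, 1, 3, 0, 0, 0, 0, 0, 0, 0, 0, 0, 0, 0, 0],
  ![0, 0, 0, 0, 0, -2, 0, 0, 0, 0, 0, 0, 0, 0, 0, 0, -1, -1, 0, 1, 0, 0, -1, 0, 0, 0, 0, 0],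
  ![0, 0, 0, 0, 0, 0, 2, 0, 0, 0, 0, 0, 0, 0, 0, 0, -1, 0, 1, 0, 1, 0, 1, 0, 0, 0, 0, 0],
  ![0, 0, 0, 0, 2, -2, 0, 0, 0, 0, 0, 0, 0, 0, 0, 0, -2, 0, 0, 0, 0, 0, -2, 0, 0, 0, 0, 0],
  ![0, 0, 0, 2, -2, 0, 0, 0, 0, 0, 0, 0, 0, 0, 0, 0, 1, -1, 1, 1, -1, 1, 1, 1, 0, 0, 0, 0],
  ![0, 5, -5, 0, 0, 0, 0, 1, 2, 2, -1, -2, 3, -1, -1, -5, 0, 0, 0, 0, 0, 0, 0, 0, 0, 0, 0, 0],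
  ![0, 3, 1, 0, 0, 0, 0, 0, 0, -2, 0, 2, 0, 0, 2, -2, 0, 0, 0, 0, 0, 0, 0, 0, 0, 0, 0, 0],
  ![0, 0, 0, 0, 0, 1, 2, 0, 0, 0, 0, 0, 0, 0, 0, 0, 1, 0, -1, 0, 1, 0, 1, 0, 1, 0, 0, 0],
  ![0, 0, 0, 0, 0, 2, -1, 0, 0, 0, 0, 0, 0, 0, 0, 0, 0, 1, -1, 1, -1, 0, 0, 0, 0, -1, 0, 0],
  ![0, 0, 0, -2, -1, 1, 2, 0, 0, 0, 0, 0, 0, 0, 0, 0, 1, -1, -1, 1, 1, -1, 1, -1, 1, 0, 0, 1],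
  ![0, 0, 0, 1, 3, 0, 0, 0, 0, 0, 0, 0, 0, 0, 0, 0, -1, 1, -1, -1, 1, 1, -1, 1, 0, 0, 1, -1],
  ![2, 0, 0, 0, 0, 0, 0, 0, 2, 0, -2, 0, 0, 0, 0, 0, 0, 0, 0, 0, 0, 0, 0, 0, 0, 0, 0, 0],
  ![0, 0, 0, -2, -1, 0, 0, 0, 0, 0, 0, 0, 0, 0, 0, 0, 0, 1, 0, 1, 0, -1, 0, -1, 0, 0, 0, 1],
  ![0, 0, 0, -1, 2, 0, 0, 0, 0, 0, 0, 0, 0, 0, 0, 0, -1, 0, 0, -1, -1, 0, 0, -1, 0, 0, 1, 0],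
  ![0, 0, 0, -2, -1, -1, -2, 0, 0, 0, 0, 0, 0, 0, 0, 0, 1, 1, 1, 1, -1, -1, -1, -1, -1, 0, 0, 1],
  ![0, 0, 0, 0, 0, -1, 3, 0, 0, 0, 0, 0, 0, 0, 0, 0, -1, -1, -1, 1, 1, 1, 1, -1, 1, 1, 0, 0],
  ![0, 0, 0, 0, -1, 0, 0, 0, 0, 0, 0, 0, 0, 0, 0, 0, 0, 0, 0, 0, 0, 0, 0, 0, 0, 0, 0, 1],
  ![0, 0, 0, -1, 0, 0, 0, 0, 0, 0, 0, 0, 0, 0, 0, 0, 0, 0, 0, 0, 0, 0, 0, 0, 0, 0, 1, 0],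
  ![0, 0, 0, 0, -1, -1, 0, 0, 0, 0, 0, 0, 0, 0, 0, 0, 0, 0, 0, 0, 0, 0, 0, 0, -1, 0, 0, 1],
  ![0, 0, 0, 0, 0, 1, 1, 0, 0, 0, 0, 0, 0, 0, 0, 0, 0, 0, 0, 0, 0, 0, 0, 0, 1, 1, 0, 0],
  ![-1, 0, 0, 0, 0, 0, 0, 1, 1, 0, -1, 0, 1, 0, 0, 0, 0, 0, 0, 0, 0, 0, 0, 0, 0, 0, 0, 0],
  ![0, 1, -1, 0, 0, 0, 0, 1, 2, 0, -1, 0, 1, -1, 1, 1, 0, 0, 0, 0, 0, 0, 0, 0, 0, 0, 0, 0],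
  ![0, -2, 0, 0, 0, 0, 0, -1, 0, 0, 0, 0, -1, 0, 0, -2, 0, 0, 0, 0, 0, 0, 0, 0, 0, 0, 0, 0],
  ![1, 1, 1, 0, 0, 0, 0, -1, -1, 0, 1, 0, -1, 0, -1, 1, 0, 0, 0, 0, 0, 0, 0, 0, 0, 0, 0, 0],
  ![0, 0, -2, 0, 0, 0, 0, 0, 0, 0, 0, 0, 0, 0, 2, 0, 0, 0, 0, 0, 0, 0, 0, 0, 0, 0, 0, 0],
  ![1, -2, 0, 0, 0, 0, 0, -2, 1, -1, 0, 1, -2, -1, 0, -2, 0, 0, 0, 0, 0, 0, 0, 0, 0, 0, 0, 0]]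

theorem cGT : ∀ p i : Fin 28, (∑ q, TorusE8.G p q * TT q i) = GT p i := by decide +kernel

theorem cT : ∀ i j : Fin 28, (∑ p, TT p i * GT p j) = if i = j then dd i else 0 := by
  decide +kernel

theorem cYT : ∀ (k : Fin 7) (i : Fin 28), 10 ≤ (i : ℕ) → (∑ p, Y7 k p * TT p i) = 0 := by
  decide +kernel

theorem dd_neg : ∀ i : Fin 28, (i : ℕ) < 10 → dd i < 0 := by decide +kernel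

theorem dd_pos : ∀ i : Fin 28, 10 ≤ (i : ℕ) → 0 < dd i := by decide +kernel

/-- `Y` is the matrix of the octonionic map -/
theorem cY : ∀ (j : Fin 8) (k : Fin 7) (l : Fin 8), yOct j k.succ l = ∑ p, Y7 k p * wdg p j l := by
  decide +kernel

/-- the value of `x_i x_j x_k x_l ω` on `[T]` -/
def omC (i j k l : Fin 8) : ℤ :=
  (TorusE8.omData.map fun t => t.2 * TorusE8.sgnL [i, j, k, l, t.1 0, t.1 1, t.1 2, t.1 3]).sum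

end Pool.Agent.PD4
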