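import Pool.Agent.PD4.Top.Bridge
import Pool.Agent.PD4.Top.Transfer
import Pool.Agent.PD4.Asm
import Pool.Agent.PD4.Cert2

/-!
# Project PD: no four dimensional Poincaré complex realises `ω`
-/

namespace Pool.Agent.PD4.Stmt

open Module ExteriorAlgebra Pool.Agent.H74

/-- the coordinate functions form a basis of `H¹(ℤ⁸)` -/
noncomputable def xb : Basis (Fin 8) ℤ (H1 8) := (Pi.basisFun ℤ (Fin 8)).dualBasis

theorem xb_apply (i : Fin 8) : xb i = xx 8 i := by
  refine LinearMap.ext fun v => ?_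
  rw [xb, Basis.coe_dualBasis]
  change (Pi.basisFun ℤ (Fin 8)).coord i v = v i
  rw [Basis.coord_apply, Pi.basisFun_repr]

theorem topClass_eq : topClass 8 = TorusE8.topClass xb := by
  unfold topClass TorusE8.topClass
  rw [ExteriorAlgebra.ιMulti_apply]
  congr 1
  refine congrArg List.ofFn (funext fun i => ?_)
  rw [xb_apply]

/-- the quadruple products -/
theorem mono_om (i j k l : Fin 8) :
    ι ℤ (xx 8 i) * ι ℤ (xx 8 j) * ι ℤ (xx 8 k) * ι ℤ (xx 8 l) * TorusE8.om xb =
      omC i j k l • topClass 8 := by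
  have h0 : ι ℤ (xx 8 i) * ι ℤ (xx 8 j) * ι ℤ (xx 8 k) * ι ℤ (xx 8 l) =
      ιMulti ℤ 4 (fun a => xb (![i, j, k, l] a)) := by
    rw [ExteriorAlgebra.ιMulti_apply]
    simp [List.ofFn_succ, xb_apply, mul_assoc]
  rw [h0, topClass_eq, TorusE8.om, omC]
  generalize TorusE8.omData = L
  induction L with
  | nil => simp
  | cons t L ih =>
    simp only [List.map_cons, List.sum_cons, mul_add, add_smul]
    rw [ih, mul_smul_comm, ιMulti_mul_ιMulti]
    have h := TorusE8.ιMulti_single_comp (n := 8) xb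
      (Fin.append ![i, j, k, l] t.1 : Fin (4 + 4) → Fin 8)
    have h2 : (fun a : Fin (4 + 4) => xb ((Fin.append ![i, j, k, l] t.1 : Fin (4 + 4) → Fin 8) a))
        = Fin.append (fun a => xb (![i, j, k, l] a)) (fun a => xb (t.1 a)) := by
      funext a
      refine Fin.addCases (fun a => ?_) (fun a => ?_) a
      · simp only [Fin.append_left]
      · simp only [Fin.append_right]
    rw [← h2]
    have h3 : (ιMulti ℤ (4 + 4)) (fun a : Fin (4 + 4) =>
        xb ((Fin.append ![i, j, k, l] t.1 : Fin (4 + 4) → Fin 8) a)) =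
        TorusE8.sgnL [(i : ℕ), j, k, l, t.1 0, t.1 1, t.1 2, t.1 3] • TorusE8.topClass xb := by
      refine h.trans ?_
      congr 1
    rw [h3, smul_smul]

/-- injectivity of `H²/torsion → ℤ²⁸` -/
theorem rankLe {M : Spc 8} (e : M.H2T ≃ₗ[ℤ] ⋀[ℤ]^2 (H1 8)) :
    Top.RankLe (Top.singCx M.X) 28 := by
  let c : M.Z2 →ₗ[ℤ] M.H2T := (Submodule.mkQ _).comp (Submodule.mkQ _)
  refine ⟨(TorusE8.B xb).equivFun.toLinearMap.comp (e.toLinearMap.comp c), fun a ha => ?_⟩
  have h1 : c a = 0 := by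
    have h2 : (TorusE8.B xb).equivFun (e (c a)) = 0 := ha
    rw [LinearEquiv.map_eq_zero_iff, LinearEquiv.map_eq_zero_iff] at h2
    exact h2
  have h3 : (Submodule.Quotient.mk a : M.H2) ∈ Submodule.torsion ℤ M.H2 :=
    (Submodule.Quotient.mk_eq_zero _).1 h1
  obtain ⟨r, hr⟩ := (Submodule.mem_torsion_iff _).1 h3
  refine ⟨(r : ℤ), nonZeroDivisors.coe_ne_zero r, ?_⟩
  have h4 : (Submodule.Quotient.mk ((r : ℤ) • a) : M.H2) = 0 := hr
  have h5 : (r : ℤ) • a ∈ (LinearMap.range (M.cobdZ 1)).comap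
      (LinearMap.ker (M.cobdZ 2)).subtype := (Submodule.Quotient.mk_eq_zero _).1 h4
  exact h5

/-- **no four dimensional Poincaré complex realises the class `ω`** -/
theorem not_realizes (M : PCx 8) (φ : LinearMap.BilinForm ℤ (⋀[ℤ]^2 (H1 8)))
    (h : M.Realizes (TorusE8.om xb) φ) : False := by
  obtain ⟨F⟩ := M.finType
  obtain ⟨e, -⟩ := h.form
  have hform : ∀ i j k l, Top.cup4 (kap M.toSpc) M.z i j k l = omC i j k l := by
    intro i j k l
    have h1 := h.push ![xx 8 i, xx 8 j, xx 8 k, xx 8 l]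
    have h2 : M.cup4 M.z ![xx 8 i, xx 8 j, xx 8 k, xx 8 l] • topClass 8 =
        omC i j k l • topClass 8 := by
      rw [← mono_om]
      exact h1.symm
    rw [topClass_eq] at h2
    rw [← cup4_eq]
    exact TorusE8.smul_topClass_injective xb h2
  obtain ⟨D⟩ := Top.iface_of_model (finModel M.toSpc F) M.z (lowExact M.toSpc)
    (pDual M.toSpc M.dual) hform (rankLe e)
  exact iface_false D

/-- there is a unimodular class which is realised by no four dimensional Poincaré complex -/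
theorem main : ∃ ω ∈ ⋀[ℤ]^4 (H1 8), ∃ φ : LinearMap.BilinForm ℤ (⋀[ℤ]^2 (H1 8)),
    IsFormOf ω φ ∧ IsUnimodular φ ∧ ∀ M : PCx 8, ¬ M.Realizes ω φ := by
  refine ⟨TorusE8.om xb, TorusE8.om_mem xb, TorusE8.phi xb, fun a b => ?_, ?_,
    fun M h => not_realizes M _ h⟩
  · rw [topClass_eq]
    exact TorusE8.isFormOf_phi xb a b
  · exact TorusE8.isUnimodular_of_gram (TorusE8.C xb) (TorusE8.phi xb) (TorusE8.E8Hinv 10)
      (by rw [TorusE8.gram_C, TorusE8.E8H_mul_inv])

end Pool.Agent.PD4.Stmt
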