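import Pool.Agent.PD4.Loc.Oct

/-!
# Project PD: the integer matrix of the certificate and the first order matrices

Octonion table: `Loc.octL` (helper41), `(octL a) c b` = coefficient of `e_c` in `conj(e_a) e_b`.
-/

open Matrix

namespace Pool.Agent.PD4

/-- the integer matrix `g` of helper74's certificate (column `u` is `g e_u`) -/
def gOct : Matrix (Fin 8) (Fin 8) ℤ :=
  !![-2, 1, 0, 0, 0, 0, 0, 0;
     0, 2, 0, 0, 0, 0, 0, 0;
     0, 0, -2, 0, 0, 0, 0, 0;
     0, 0, 1, 1, 0, 0, 0, 0;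
     0, 0, 0, 0, 0, 0, 0, -1;
     0, 0, 0, 0, 0, 0, -1, 1;
     0, 0, 0, 0, 1, 0, 1, 0;
     0, 0, 0, 0, 0, -1, 0, 0]

/-- the octonion matrices in the coordinates of the certificate: coefficient of `e_c` in
`conj(g e_j) (g e_l)` -/
def yOct (j c l : Fin 8) : ℤ := ∑ a, ∑ b, gOct a j * gOct b l * Loc.octL a c b

/-- first order matrices: `M(u) v = (⟨u, v⟩, Im (conj (g u) (g v)))`, `M(u) = ∑ u_j MOct j` -/
def MOct (j c l : Fin 8) : ℤ := if c = 0 then (if j = l then 1 else 0) else yOct j c l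

end Pool.Agent.PD4
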