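import Pool.Agent.PD4.Cert2

/-!
# Project PD (MP_69cf13_gt): the class `ω` in the exterior algebra (helper74)

`mono4`: `x_i x_j x_k x_l ω = omC i j k l • [T]` for all `i j k l`;
`omC_of_smul`: the integers `c` with `c • [T] = x_i x_j x_k x_l ω` are `omC i j k l`;
`main'`: the explicit form of `TorusE8.main`;
`toFin28`: coordinates on `⋀² V`.
-/

namespace Pool.Agent.PD4

open ExteriorAlgebra Module Pool.Agent.H74

variable {V : Type} [AddCommGroup V]

lemma prod4 (a b c d : V) :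
    ι ℤ a * ι ℤ b * ι ℤ c * ι ℤ d = ιMulti ℤ 4 ![a, b, c, d] := by
  rw [ιMulti_apply]
  simp [List.ofFn_succ, mul_assoc]

lemma mono4_mul (x : Basis (Fin 8) ℤ V) (i j k l : Fin 8) (s : Fin 4 → Fin 8) :
    ι ℤ (x i) * ι ℤ (x j) * ι ℤ (x k) * ι ℤ (x l) * ιMulti ℤ 4 (fun a => x (s a)) =
      TorusE8.sgnL [i, j, k, l, s 0, s 1, s 2, s 3] • TorusE8.topClass x := by
  rw [prod4, ιMulti_mul_ιMulti]
  have h := TorusE8.ιMulti_single_comp (n := 8) x
    (Fin.append ![i, j, k, l] s : Fin (4 + 4) → Fin 8)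
  have h2 : (fun a : Fin (4 + 4) => x ((Fin.append ![i, j, k, l] s : Fin (4 + 4) → Fin 8) a)) =
      Fin.append ![x i, x j, x k, x l] (fun a => x (s a)) := by
    funext a
    refine Fin.addCases (fun a => ?_) (fun a => ?_) a
    · simp only [Fin.append_left]
      fin_cases a <;> rfl
    · simp only [Fin.append_right]
  rw [← h2]
  refine h.trans ?_
  congr 1

/-- `x_i x_j x_k x_l ω = omC i j k l • [T]` -/
theorem mono4 (x : Basis (Fin 8) ℤ V) (i j k l : Fin 8) :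
    ι ℤ (x i) * ι ℤ (x j) * ι ℤ (x k) * ι ℤ (x l) * TorusE8.om x =
      omC i j k l • TorusE8.topClass x := by
  rw [TorusE8.om, omC]
  generalize TorusE8.omData = L
  induction L with
  | nil => simp
  | cons t L ih =>
    simp only [List.map_cons, List.sum_cons, mul_add, add_smul]
    rw [ih, mul_smul_comm, mono4_mul, smul_smul]

theorem omC_of_smul (x : Basis (Fin 8) ℤ V) (i j k l : Fin 8) (c : ℤ)
    (h : c • TorusE8.topClass x =
      ι ℤ (x i) * ι ℤ (x j) * ι ℤ (x k) * ι ℤ (x l) * TorusE8.om x) :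
    c = omC i j k l := by
  rw [mono4] at h
  exact TorusE8.smul_topClass_injective x h

/-- the explicit form of `TorusE8.main` -/
theorem main' (x : Basis (Fin 8) ℤ V) :
    TorusE8.om x ∈ ⋀[ℤ]^4 V ∧
      (∀ a b : ⋀[ℤ]^2 V, (a : ExteriorAlgebra ℤ V) * (b : ExteriorAlgebra ℤ V) * TorusE8.om x =
        TorusE8.phi x a b • TorusE8.topClass x) ∧
      TorusE8.IsUnimodular (TorusE8.phi x) ∧
      ∃ b : Basis (Fin 8 ⊕ Fin 10 × Fin 2) ℤ (⋀[ℤ]^2 V),
        ∀ i j, TorusE8.phi x (b i) (b j) = TorusE8.E8H 10 i j :=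
  ⟨TorusE8.om_mem x, TorusE8.isFormOf_phi x,
    TorusE8.isUnimodular_of_gram (TorusE8.C x) (TorusE8.phi x) (TorusE8.E8Hinv 10)
      (by rw [TorusE8.gram_C, TorusE8.E8H_mul_inv]), TorusE8.C x,
    fun i j => by rw [← TorusE8.gram_C x, LinearMap.BilinForm.toMatrix_apply]⟩

/-- coordinates on `⋀² V` -/
noncomputable def toFin28 (x : Basis (Fin 8) ℤ V) : (⋀[ℤ]^2 V) ≃ₗ[ℤ] (Fin 28 → ℤ) :=
  (TorusE8.B x).equivFun

end Pool.Agent.PD4
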