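import Pool.Agent.PD4.Ix.ChRules
import Pool.Agent.PD4.Cx0

/-!
# Project PD4: from the algebraic interface to the geometric core data (helper42)

`B` hermitian unit over `Sm n`, `A` with `A* B A ≤ 0`, injective off the lattice and `A(0) = 0`,
real congruence `S` with `Sᵀ B(0) S` diagonal.  `M = Sᵀ B S`, `P` its negative projection,
`F = P S⁻¹ A`.
-/

open Matrix
open scoped ComplexOrder ContDiff

namespace Pool.Agent.PD4

section traceConst

variable {ι : Type*} [Fintype ι] [DecidableEq ι] {n : ℕ}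

lemma mD_mul' {κ κ' κ'' : Type*} [Fintype κ'] (i : Fin n) (M : Matrix κ κ' (Sm n))
    (N : Matrix κ' κ'' (Sm n)) : mD i (M * N) = mD i M * N + M * mD i N := by
  ext1 j k
  simp only [mD, LinearMap.mapMatrix_apply, Matrix.map_apply, Matrix.mul_apply,
    Matrix.add_apply, map_sum, pD_leib, Finset.sum_add_distrib]

lemma trace_mD_idem {P : Matrix ι ι (Sm n)} (hP : P * P = P) (i : Fin n) :
    pD i P.trace = 0 := by
  have h0 : pD i P.trace = (mD i P).trace := by
    simp only [Matrix.trace, Matrix.diag_apply, map_sum]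
    rfl
  have h1 : mD i P = mD i P * P + P * mD i P := by
    conv_lhs => rw [← hP]
    exact mD_mul' i P P
  have h2 : P * mD i P * P = 0 := by
    have h3 : P * mD i P = P * mD i P * P + P * mD i P := by
      conv_lhs => rw [h1]
      rw [Matrix.mul_add, ← Matrix.mul_assoc, ← Matrix.mul_assoc, hP]
    have h4 : P * mD i P * P + P * mD i P = 0 + P * mD i P := by rw [← h3, zero_add]
    exact add_right_cancel h4
  have h5 : (P * mD i P).trace = 0 := by
    have h6 : (P * mD i P).trace = (P * mD i P * P).trace := by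
      rw [Matrix.trace_mul_comm (P * mD i P) P, ← Matrix.mul_assoc, hP]
    rw [h6, h2, Matrix.trace_zero]
  rw [h0, h1, Matrix.trace_add, Matrix.trace_mul_comm, h5, add_zero]

/-- the trace of an idempotent over `Sm n` is constant -/
lemma trace_idem_const {P : Matrix ι ι (Sm n)} (hP : P * P = P) (x y : Fin n → ℝ) :
    (mev x P).trace = (mev y P).trace := by
  have h : ∀ x : Fin n → ℝ, (mev x P).trace = (P.trace).1 x := by
    intro x
    have := map_sum (Sm.ev x) (fun i => P i i) Finset.univ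
    exact this.symm
  rw [h, h]
  have hd : Differentiable ℝ (P.trace).1 := Sm.diff_coe _
  have hz : ∀ z, fderiv ℝ (P.trace).1 z = 0 := by
    intro z
    ext v
    have hv : v = ∑ i, v i • (Pi.single i 1 : Fin n → ℝ) := by
      funext j
      rw [Finset.sum_apply, Finset.sum_eq_single j]
      · simp
      · intro i _ hij
        simp [Pi.single_apply, hij.symm]
      · simp
    rw [hv, map_sum]
    simp only [map_smul]
    rw [Finset.sum_eq_zero]
    · rfl
    · intro i _
      have h1 : (pD i P.trace).1 z = 0 := by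
        rw [trace_mD_idem hP i]
        rfl
      rw [pD_apply] at h1
      rw [h1, smul_zero]
  exact is_const_of_fderiv_eq_zero hd hz x y

end traceConst

section split

variable {ι : Type*} [Fintype ι] [DecidableEq ι]

/-- the negative projection of a real diagonal sign matrix -/
lemma negP_diag (s : Finset ι) :
    Pool.Agent.H95.PD.negP (Matrix.diagonal fun i => if i ∈ s then (-1 : ℂ) else 1) =
      Matrix.diagonal fun i => if i ∈ s then (1 : ℂ) else 0 := by
  apply Pool.Agent.H95.PD.negP_unique (K := 1) Matrix.PosDef.one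
  · rw [Matrix.diagonal_mul_diagonal]
    congr 1
    funext i
    by_cases h : i ∈ s <;> simp [h]
  · rw [Matrix.one_mul]
    ext i j
    by_cases h : i = j
    · subst h
      by_cases h' : i ∈ s
      · simp [h']; norm_num
      · simp [h']
    · simp [h]
  · rw [Matrix.mul_one]
    ext i j
    by_cases h : i = j
    · subst h
      by_cases h' : i ∈ s
      · simp [h']; norm_num
      · simp [h']
    · simp [h]

variable {B : Matrix ι ι (Sm 8)} {A : Matrix ι (Fin 8) (Sm 8)} {S : Matrix ι ι ℝ}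

/-- the congruent matrix `Sᵀ B S` -/
noncomputable def conB (B : Matrix ι ι (Sm 8)) (S : Matrix ι ι ℝ) : Matrix ι ι (Sm 8) :=
  rMat Sᵀ * B * rMat S

lemma conB_herm (hB : Bᴴ = B) (S : Matrix ι ι ℝ) : (conB B S)ᴴ = conB B S := by
  unfold conB
  rw [Matrix.conjTranspose_mul, Matrix.conjTranspose_mul, rMat_conjTranspose, rMat_conjTranspose,
    hB, Matrix.transpose_transpose, Matrix.mul_assoc]

lemma conB_isUnit (hB : IsUnit B) (hS : IsUnit S) : IsUnit (conB B S) := by
  have hSu : IsUnit S.det := (Matrix.isUnit_iff_isUnit_det S).1 hS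
  have h1 : IsUnit (rMat (n := 8) S) := by
    refine ⟨⟨rMat S, rMat S⁻¹, ?_, ?_⟩, rfl⟩
    · exact (rMat_mul S S⁻¹).symm.trans (by rw [Matrix.mul_nonsing_inv _ hSu, rMat_one])
    · exact (rMat_mul S⁻¹ S).symm.trans (by rw [Matrix.nonsing_inv_mul _ hSu, rMat_one])
  have h2 : IsUnit (rMat (n := 8) Sᵀ) := by
    rw [← rMat_conjTranspose]
    exact (Matrix.isUnit_conjTranspose _).2 h1
  exact (h2.mul hB).mul h1

lemma conB_real (hB : MReal B) (S : Matrix ι ι ℝ) : MReal (conB B S) :=
  ((mreal_rMat _).mul hB).mul (mreal_rMat _)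

/-- the negative bundle -/
noncomputable def nP (hB : Bᴴ = B) (hBu : IsUnit B) (hS : IsUnit S) : Matrix ι ι (Sm 8) :=
  negProj (conB B S) (conB_herm hB S) (conB_isUnit hBu hS)

/-- the map `F = P S⁻¹ A` -/
noncomputable def nF (hB : Bᴴ = B) (hBu : IsUnit B) (hS : IsUnit S)
    (A : Matrix ι (Fin 8) (Sm 8)) : Matrix ι (Fin 8) (Sm 8) :=
  nP hB hBu hS * ((rMat (n := 8) (S⁻¹ : Matrix ι ι ℝ) : Matrix ι ι (Sm 8)) * A)

variable (hB : Bᴴ = B) (hBu : IsUnit B) (hS : IsUnit S)

lemma nP_idem : nP hB hBu hS * nP hB hBu hS = nP hB hBu hS := negProj_idem _ _ _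

lemma nP_herm : (nP hB hBu hS)ᴴ = nP hB hBu hS := negProj_herm _ _ _

lemma nP_real (hBr : MReal B) : MReal (nP hB hBu hS) := negProj_real _ _ _ (conB_real hBr S)

lemma nP_mul_nF (A : Matrix ι (Fin 8) (Sm 8)) : nP hB hBu hS * nF hB hBu hS A = nF hB hBu hS A := by
  unfold nF
  rw [← Matrix.mul_assoc, nP_idem]

lemma nF_real (hBr : MReal B) (hAr : MReal A) : MReal (nF hB hBu hS A) :=
  (nP_real hB hBu hS hBr).mul ((mreal_rMat _).mul hAr)

lemma nP_zero {s : Finset ι}
    (hSB : mev 0 (conB B S) = Matrix.diagonal fun i => if i ∈ s then (-1 : ℂ) else 1) :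
    mev 0 (nP hB hBu hS) = Matrix.diagonal fun i => if i ∈ s then (1 : ℂ) else 0 := by
  unfold nP
  rw [mev_negProj, hSB, negP_diag]

lemma nP_trace {s : Finset ι}
    (hSB : mev 0 (conB B S) = Matrix.diagonal fun i => if i ∈ s then (-1 : ℂ) else 1)
    (x : Fin 8 → ℝ) : (mev x (nP hB hBu hS)).trace = s.card := by
  rw [trace_idem_const (nP_idem hB hBu hS) x 0, nP_zero hB hBu hS hSB, Matrix.trace_diagonal]
  simp

lemma nF_zero (h0 : mev 0 A = 0) : mev 0 (nF hB hBu hS A) = 0 := by
  unfold nF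
  rw [mev_mul, mev_mul, h0, Matrix.mul_zero, Matrix.mul_zero]

/-- `F(x)` is injective wherever `A(x)` is, provided `A* B A ≤ 0` -/
lemma nF_inj {x : Fin 8 → ℝ}
    (hneg : ∀ v : Fin 8 → ℂ, (star v ⬝ᵥ (mev x (Aᴴ * B * A)).mulVec v).re ≤ 0)
    (hinj : ∀ v : Fin 8 → ℂ, (mev x A).mulVec v = 0 → v = 0) (v : Fin 8 → ℂ)
    (hv : (mev x (nF hB hBu hS A)).mulVec v = 0) : v = 0 := by
  apply hinj
  set M := conB B S with hM
  set P := nP hB hBu hS with hP
  set y : ι → ℂ := (cx S⁻¹).mulVec ((mev x A).mulVec v) with hy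
  have hSu : IsUnit S.det := (Matrix.isUnit_iff_isUnit_det S).1 hS
  have h1 : (mev x P).mulVec y = 0 := by
    rw [hy, Matrix.mulVec_mulVec, Matrix.mulVec_mulVec, ← hv]
    congr 1
    unfold nF
    rw [mev_mul, mev_mul, mev_rMat, ← Matrix.mul_assoc]
  have hSy : (cx S).mulVec y = (mev x A).mulVec v := by
    rw [hy, Matrix.mulVec_mulVec, ← cx_mul, Matrix.mul_nonsing_inv _ hSu, cx_one,
      Matrix.one_mulVec]
  have h2 : star y ⬝ᵥ (mev x M).mulVec y = star v ⬝ᵥ (mev x (Aᴴ * B * A)).mulVec v := by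
    rw [hM]
    unfold conB
    rw [mev_mul, mev_mul, mev_mul, mev_mul, mev_rMat, mev_rMat, mev_conjTranspose,
      ← Matrix.mulVec_mulVec, ← Matrix.mulVec_mulVec, ← Matrix.mulVec_mulVec,
      ← Matrix.mulVec_mulVec, hSy, ← cx_conjTranspose]
    rw [Matrix.dotProduct_mulVec, ← Matrix.star_mulVec, hSy]
    rw [Matrix.dotProduct_mulVec (star v), ← Matrix.star_mulVec]
  have h3 : (mev x M).mulVec y = (mev x (absSm M (conB_herm hB S) (conB_isUnit hBu hS))).mulVec y := by
    have e := abs_mul_negProj M (conB_herm hB S) (conB_isUnit hBu hS)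
    have e2 : mev x M = mev x (absSm M (conB_herm hB S) (conB_isUnit hBu hS)) *
        (1 - (2 : ℂ) • mev x P) := by
      conv_lhs => rw [← e]
      rw [mev_mul, mev_sub, mev_one, mev_smul]
      rfl
    rw [e2, ← Matrix.mulVec_mulVec, Matrix.sub_mulVec, Matrix.one_mulVec, Matrix.smul_mulVec,
      h1, smul_zero, sub_zero]
  have h4 : y = 0 := by
    by_contra hne
    have h5 := (absSm_posDef M (conB_herm hB S) (conB_isUnit hBu hS) x).re_dotProduct_pos hne
    have h6 := hneg v
    rw [← h2, h3] at h6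
    exact absurd h5 (not_lt.2 h6)
  rw [← hSy, h4, Matrix.mulVec_zero]

/-- first order behaviour of `F` at the origin -/
lemma nF_deriv {κ : Type*} {s : Finset ι}
    (hSB : mev 0 (conB B S) = Matrix.diagonal fun i => if i ∈ s then (-1 : ℂ) else 1)
    (h0 : mev 0 A = 0) (lam : Matrix κ ι ℝ) (hlam : ∀ i ∉ s, ∀ k, (lam * S) k i = 0)
    (j : Fin 8) :
    cx (lam * S) * mev 0 (mD j (nF hB hBu hS A)) = cx lam * mev 0 (mD j A) := by
  have hSu : IsUnit S.det := (Matrix.isUnit_iff_isUnit_det S).1 hS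
  have e1 : mev 0 (mD j (nF hB hBu hS A)) = mev 0 (mD j (nP hB hBu hS)) *
      (cx S⁻¹ * mev 0 A) + mev 0 (nP hB hBu hS) *
        (mev 0 (mD j (rMat (n := 8) S⁻¹)) * mev 0 A + cx S⁻¹ * mev 0 (mD j A)) := by
    unfold nF
    rw [mD_mul', mev_add, mev_mul _ (mD j _), mev_mul _ (nP hB hBu hS), mD_mul', mev_add,
      mev_mul _ (rMat _), mev_mul _ (mD j _), mev_mul _ (rMat _), mev_rMat]
  rw [e1, h0, Matrix.mul_zero, Matrix.mul_zero, Matrix.mul_zero, zero_add, zero_add,
    nP_zero hB hBu hS hSB]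
  have h1 : cx (lam * S) * (Matrix.diagonal fun i => if i ∈ s then (1 : ℂ) else 0) =
      cx (lam * S) := by
    ext k i
    rw [Matrix.mul_diagonal]
    by_cases h : i ∈ s
    · simp [h]
    · simp [h, cx, hlam i h k]
  rw [← Matrix.mul_assoc, h1, ← Matrix.mul_assoc, ← cx_mul, Matrix.mul_assoc,
    Matrix.mul_nonsing_inv _ hSu, Matrix.mul_one]

end split

end Pool.Agent.PD4
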